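import Pool.Agent.Y408.BA.Sys

/-!
Nested four-cycles: in every system of upward curves the cycles `C i` on the vertices
`4 i, 4 i + 1` (sources), `4 i + 2, 4 i + 3` (sinks), joined by the arcs `4 (i+1) → 4 i + 2` and
`4 (i+1) + 1 → 4 i + 3`, are nested around a common place, up to a factor two.
-/

set_option autoImplicit false

namespace Pool.Agent.Y408.BA

/-- the arcs of the `i`-th cycle -/
def cyc (i : ℕ) : List (ℕ × ℕ) :=
  [(4 * i, 4 * i + 2), (4 * i + 1, 4 * i + 2), (4 * i, 4 * i + 3), (4 * i + 1, 4 * i + 3)]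

/-- the system contains the arcs of `m` cycles and the arcs between consecutive cycles -/
structure Nested (S : Sys) (m : ℕ) : Prop where
  a : ∀ i, i < m → S.E (4 * i) (4 * i + 2)
  b : ∀ i, i < m → S.E (4 * i + 1) (4 * i + 2)
  c : ∀ i, i < m → S.E (4 * i) (4 * i + 3)
  d : ∀ i, i < m → S.E (4 * i + 1) (4 * i + 3)
  x : ∀ i, i + 1 < m → S.E (4 * (i + 1)) (4 * i + 2)
  y : ∀ i, i + 1 < m → S.E (4 * (i + 1) + 1) (4 * i + 3)

variable {S : Sys} {m : ℕ}

theorem Nested.cyc_E (N : Nested S m) {i : ℕ} (hi : i < m) : ∀ g ∈ cyc i, S.E g.1 g.2 := by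
  intro g hg
  simp only [cyc, List.mem_cons, List.not_mem_nil, or_false] at hg
  rcases hg with rfl | rfl | rfl | rfl
  · exact N.a i hi
  · exact N.b i hi
  · exact N.c i hi
  · exact N.d i hi

theorem cyc_even (i : ℕ) : EvenL (cyc i) := by
  constructor
  · intro v
    simp only [cyc, List.map_cons, List.map_nil, List.sum_cons, List.sum_nil]
    split_ifs <;> decide
  · intro v
    simp only [cyc, List.map_cons, List.map_nil, List.sum_cons, List.sum_nil]
    split_ifs <;> decide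

theorem Sys.mv_head {C : List (ℕ × ℕ)} (hC : EvenL C) (hCE : ∀ g ∈ C, S.E g.1 g.2) {u u' w : ℕ}
    (h : S.E u w) (h' : S.E u' w) (hs : ∀ g ∈ C, g.2 ≠ w) :
    S.chi C (u, w) (S.Y u) = S.chi C (u', w) (S.Y u') := by
  have hlt := S.lt _ _ h
  have hlt' := S.lt _ _ h'
  have e1 := S.chi_eq hC hCE (e := (u, w)) h (fun h1 => hs _ h1 rfl) (S.Y w - 1)
    (by show S.Y u ≤ _; omega) (by show _ < S.Y w; omega)
  have e2 := S.chi_eq hC hCE (e := (u', w)) h' (fun h1 => hs _ h1 rfl) (S.Y w - 1)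
    (by show S.Y u' ≤ _; omega) (by show _ < S.Y w; omega)
  have e3 := S.chi_head hCE h h' hs
  rw [← e1, ← e2, e3]

theorem cyc_fst {i : ℕ} {g : ℕ × ℕ} (hg : g ∈ cyc i) : g.1 = 4 * i ∨ g.1 = 4 * i + 1 := by
  simp only [cyc, List.mem_cons, List.not_mem_nil, or_false] at hg
  rcases hg with rfl | rfl | rfl | rfl <;> simp

theorem cyc_snd {i : ℕ} {g : ℕ × ℕ} (hg : g ∈ cyc i) : g.2 = 4 * i + 2 ∨ g.2 = 4 * i + 3 := by
  simp only [cyc, List.mem_cons, List.not_mem_nil, or_false] at hg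
  rcases hg with rfl | rfl | rfl | rfl <;> simp

/-- the side of the cycle `j` on which the cycle `i` lies -/
noncomputable def Sys.side (S : Sys) (j i : ℕ) : ZMod 2 :=
  S.chi (cyc j) (4 * i, 4 * i + 2) (S.Y (4 * i))

theorem Nested.side_c (N : Nested S m) {i j : ℕ} (hi : i < m) (hj : j < m) (h : i ≠ j) :
    S.chi (cyc j) (4 * i, 4 * i + 3) (S.Y (4 * i)) = S.side j i :=
  S.chi_tail (N.cyc_E hj) (N.c i hi) (N.a i hi) (fun g hg => by
    have := cyc_fst hg; omega)

theorem Nested.side_b (N : Nested S m) {i j : ℕ} (hi : i < m) (hj : j < m) (h : i ≠ j) :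
    S.chi (cyc j) (4 * i + 1, 4 * i + 2) (S.Y (4 * i + 1)) = S.side j i :=
  S.mv_head (cyc_even j) (N.cyc_E hj) (N.b i hi) (N.a i hi) (fun g hg => by
    have := cyc_snd hg; omega)

theorem Nested.side_d (N : Nested S m) {i j : ℕ} (hi : i < m) (hj : j < m) (h : i ≠ j) :
    S.chi (cyc j) (4 * i + 1, 4 * i + 3) (S.Y (4 * i + 1)) = S.side j i := by
  rw [← N.side_c hi hj h]
  exact S.mv_head (cyc_even j) (N.cyc_E hj) (N.d i hi) (N.c i hi) (fun g hg => by
    have := cyc_snd hg; omega)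

theorem Nested.side_mem (N : Nested S m) {i j : ℕ} (hi : i < m) (hj : j < m) (h : i ≠ j)
    {g : ℕ × ℕ} (hg : g ∈ cyc i) : S.chi (cyc j) g (S.Y g.1) = S.side j i := by
  simp only [cyc, List.mem_cons, List.not_mem_nil, or_false] at hg
  rcases hg with rfl | rfl | rfl | rfl
  · rfl
  · exact N.side_b hi hj h
  · exact N.side_c hi hj h
  · exact N.side_d hi hj h

theorem Nested.side_x (N : Nested S m) {i j : ℕ} (hi : i + 1 < m) (hj : j < m) (h : i ≠ j) :
    S.chi (cyc j) (4 * (i + 1), 4 * i + 2) (S.Y (4 * (i + 1))) = S.side j i :=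
  S.mv_head (cyc_even j) (N.cyc_E hj) (N.x i hi) (N.a i (by omega)) (fun g hg => by
    have := cyc_snd hg; omega)

theorem Nested.side_succ (N : Nested S m) {i j : ℕ} (hi : i + 1 < m) (hj : j < m) (h : i ≠ j)
    (h' : i + 1 ≠ j) : S.side j i = S.side j (i + 1) := by
  rw [← N.side_x hi hj h]
  exact S.chi_tail (N.cyc_E hj) (N.x i hi) (N.a (i + 1) hi) (fun g hg => by
    have := cyc_fst hg; omega)

/-- the two neighbours of a cycle lie on different sides of it -/
theorem Nested.opposite (N : Nested S m) {i : ℕ} (hi : i + 2 < m) :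
    S.side (i + 1) i + S.side (i + 1) (i + 2) = 1 := by
  have A0 := N.a i (by omega)
  have C0 := N.c i (by omega)
  have A1 := N.a (i + 1) (by omega)
  have B1 := N.b (i + 1) (by omega)
  have C1 := N.c (i + 1) (by omega)
  have D1 := N.d (i + 1) (by omega)
  have A2 := N.a (i + 2) hi
  have B2 := N.b (i + 2) hi
  have X0 := N.x i (by omega)
  have Y0 := N.y i (by omega)
  have X1 := N.x (i + 1) hi
  have Y1 := N.y (i + 1) hi
  have th := S.theta (s := 4 * (i + 1)) A1 C1 X0 (by omega) (by omega) (by omega)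
    (Q1 := [(4 * (i + 1) + 1, 4 * (i + 1) + 2)]) (Q2 := [(4 * (i + 1) + 1, 4 * (i + 1) + 3)])
    (Q3 := [(4 * i, 4 * i + 2), (4 * i, 4 * i + 3), (4 * (i + 1) + 1, 4 * i + 3)])
    (by
      intro g hg
      simp only [List.mem_cons, List.not_mem_nil, or_false] at hg
      rcases hg with rfl
      exact ⟨B1, by simp⟩)
    (by
      intro g hg
      simp only [List.mem_cons, List.not_mem_nil, or_false] at hg
      rcases hg with rfl
      exact ⟨D1, by simp⟩)
    (by
      intro g hg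
      simp only [List.mem_cons, List.not_mem_nil, or_false] at hg
      rcases hg with rfl | rfl | rfl
      · exact ⟨A0, by simp⟩
      · exact ⟨C0, by simp⟩
      · exact ⟨Y0, by simp⟩)
  set P1 : List (ℕ × ℕ) := [(4 * (i + 1), 4 * (i + 1) + 2), (4 * (i + 1) + 1, 4 * (i + 1) + 2)]
    with hP1
  set P2 : List (ℕ × ℕ) := [(4 * (i + 1), 4 * (i + 1) + 3), (4 * (i + 1) + 1, 4 * (i + 1) + 3)]
    with hP2
  set P3 : List (ℕ × ℕ) := [(4 * (i + 1), 4 * i + 2), (4 * i, 4 * i + 2), (4 * i, 4 * i + 3),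
    (4 * (i + 1) + 1, 4 * i + 3)] with hP3
  have hC : P1 ++ P2 = cyc (i + 1) := rfl
  have ev23 : EvenL (P2 ++ P3) := by
    constructor
    · intro v
      simp only [hP2, hP3, List.cons_append, List.nil_append, List.map_cons, List.map_nil,
        List.sum_cons, List.sum_nil]
      split_ifs <;> decide
    · intro v
      simp only [hP2, hP3, List.cons_append, List.nil_append, List.map_cons, List.map_nil,
        List.sum_cons, List.sum_nil]
      split_ifs <;> decide
  have ev13 : EvenL (P1 ++ P3) := by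
    constructor
    · intro v
      simp only [hP1, hP3, List.cons_append, List.nil_append, List.map_cons, List.map_nil,
        List.sum_cons, List.sum_nil]
      split_ifs <;> decide
    · intro v
      simp only [hP1, hP3, List.cons_append, List.nil_append, List.map_cons, List.map_nil,
        List.sum_cons, List.sum_nil]
      split_ifs <;> decide
  have E23 : ∀ g ∈ P2 ++ P3, S.E g.1 g.2 := by
    intro g hg
    simp only [hP2, hP3, List.cons_append, List.nil_append, List.mem_cons, List.not_mem_nil,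
      or_false] at hg
    rcases hg with rfl | rfl | rfl | rfl | rfl | rfl <;> assumption
  have E13 : ∀ g ∈ P1 ++ P3, S.E g.1 g.2 := by
    intro g hg
    simp only [hP1, hP3, List.cons_append, List.nil_append, List.mem_cons, List.not_mem_nil,
      or_false] at hg
    rcases hg with rfl | rfl | rfl | rfl | rfl | rfl <;> assumption
  have H23 : ∀ g ∈ P2 ++ P3, g.2 ≠ 4 * (i + 1) + 2 := by
    intro g hg
    simp only [hP2, hP3, List.cons_append, List.nil_append, List.mem_cons, List.not_mem_nil,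
      or_false] at hg
    rcases hg with rfl | rfl | rfl | rfl | rfl | rfl <;> simp only [ne_eq] <;> omega
  have T23 : ∀ g ∈ P2 ++ P3, g.1 ≠ 4 * (i + 2) := by
    intro g hg
    simp only [hP2, hP3, List.cons_append, List.nil_append, List.mem_cons, List.not_mem_nil,
      or_false] at hg
    rcases hg with rfl | rfl | rfl | rfl | rfl | rfl <;> simp only [ne_eq] <;> omega
  have H13 : ∀ g ∈ P1 ++ P3, g.2 ≠ 4 * (i + 1) + 3 ∧ g.2 ≠ 4 * (i + 2) + 2 := by
    intro g hg
    simp only [hP1, hP3, List.cons_append, List.nil_append, List.mem_cons, List.not_mem_nil,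
      or_false] at hg
    rcases hg with rfl | rfl | rfl | rfl | rfl | rfl <;> simp only [ne_eq] <;> omega
  have T13 : ∀ g ∈ P1 ++ P3, g.1 ≠ 4 * (i + 2) + 1 := by
    intro g hg
    simp only [hP1, hP3, List.cons_append, List.nil_append, List.mem_cons, List.not_mem_nil,
      or_false] at hg
    rcases hg with rfl | rfl | rfl | rfl | rfl | rfl <;> simp only [ne_eq] <;> omega
  -- first term
  have f1 : S.chi (P2 ++ P3) (4 * (i + 1), 4 * (i + 1) + 2) (S.Y (4 * (i + 1))) =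
      S.chi (P2 ++ P3) (4 * (i + 2), 4 * (i + 2) + 2) (S.Y (4 * (i + 2))) := by
    rw [S.mv_head ev23 E23 A1 X1 H23]
    exact S.chi_tail E23 X1 A2 T23
  have f2 : S.chi (P1 ++ P3) (4 * (i + 1), 4 * (i + 1) + 3) (S.Y (4 * (i + 1))) =
      S.chi (P1 ++ P3) (4 * (i + 2), 4 * (i + 2) + 2) (S.Y (4 * (i + 2))) := by
    rw [S.mv_head ev13 E13 C1 Y1 (fun g hg => (H13 g hg).1)]
    have e1 := S.chi_tail E13 Y1 B2 T13
    have e2 := S.mv_head ev13 E13 B2 A2 (fun g hg => (H13 g hg).2)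
    exact e1.trans e2
  have f3 : S.chi (P1 ++ P2) (4 * (i + 1), 4 * i + 2) (S.Y (4 * (i + 1))) = S.side (i + 1) i :=
    N.side_x (by omega) (by omega) (by omega)
  have th' : S.chi (P2 ++ P3) (4 * (i + 1), 4 * (i + 1) + 2) (S.Y (4 * (i + 1))) +
      S.chi (P1 ++ P3) (4 * (i + 1), 4 * (i + 1) + 3) (S.Y (4 * (i + 1))) +
      S.chi (P1 ++ P2) (4 * (i + 1), 4 * i + 2) (S.Y (4 * (i + 1))) = 1 := th
  rw [f1, f2, f3] at th'
  have f4 : S.side (i + 1) (i + 2) =
      S.chi (P1 ++ P2) (4 * (i + 2), 4 * (i + 2) + 2) (S.Y (4 * (i + 2))) := rfl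
  rw [f4]
  rw [S.chi_append] at th' ⊢
  rw [S.chi_append] at th'
  generalize S.chi P1 (4 * (i + 2), 4 * (i + 2) + 2) (S.Y (4 * (i + 2))) = p1 at *
  generalize S.chi P2 (4 * (i + 2), 4 * (i + 2) + 2) (S.Y (4 * (i + 2))) = p2 at *
  generalize S.chi P3 (4 * (i + 2), 4 * (i + 2) + 2) (S.Y (4 * (i + 2))) = p3 at *
  generalize S.side (i + 1) i = p4 at *
  clear f1 f2 f3 f4 th
  revert p1 p2 p3 p4
  decide

/-- the extreme coordinates of the `i`-th cycle -/
def Sys.L (S : Sys) (i : ℕ) : ℤ :=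
  min (min (S.lo (4 * i) (4 * i + 2)) (S.lo (4 * i + 1) (4 * i + 2)))
    (min (S.lo (4 * i) (4 * i + 3)) (S.lo (4 * i + 1) (4 * i + 3)))

def Sys.R (S : Sys) (i : ℕ) : ℤ :=
  max (max (S.hi (4 * i) (4 * i + 2)) (S.hi (4 * i + 1) (4 * i + 2)))
    (max (S.hi (4 * i) (4 * i + 3)) (S.hi (4 * i + 1) (4 * i + 3)))

def Sys.B (S : Sys) (i : ℕ) : ℤ := min (S.Y (4 * i)) (S.Y (4 * i + 1))

def Sys.U (S : Sys) (i : ℕ) : ℤ := max (S.Y (4 * i + 2)) (S.Y (4 * i + 3))

theorem Sys.L_le {i : ℕ} {g : ℕ × ℕ} (hg : g ∈ cyc i) : S.L i ≤ S.lo g.1 g.2 := by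
  simp only [cyc, List.mem_cons, List.not_mem_nil, or_false] at hg
  unfold Sys.L
  rcases hg with rfl | rfl | rfl | rfl <;> simp

theorem Sys.le_R {i : ℕ} {g : ℕ × ℕ} (hg : g ∈ cyc i) : S.hi g.1 g.2 ≤ S.R i := by
  simp only [cyc, List.mem_cons, List.not_mem_nil, or_false] at hg
  unfold Sys.R
  rcases hg with rfl | rfl | rfl | rfl <;> simp

theorem Sys.L_eq (i : ℕ) : ∃ g ∈ cyc i, S.L i = S.lo g.1 g.2 := by
  unfold Sys.L
  rcases min_choice (min (S.lo (4 * i) (4 * i + 2)) (S.lo (4 * i + 1) (4 * i + 2)))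
    (min (S.lo (4 * i) (4 * i + 3)) (S.lo (4 * i + 1) (4 * i + 3))) with h | h
  · rw [h]
    rcases min_choice (S.lo (4 * i) (4 * i + 2)) (S.lo (4 * i + 1) (4 * i + 2)) with h | h
    · exact ⟨(4 * i, 4 * i + 2), by simp [cyc], h⟩
    · exact ⟨(4 * i + 1, 4 * i + 2), by simp [cyc], h⟩
  · rw [h]
    rcases min_choice (S.lo (4 * i) (4 * i + 3)) (S.lo (4 * i + 1) (4 * i + 3)) with h | h
    · exact ⟨(4 * i, 4 * i + 3), by simp [cyc], h⟩
    · exact ⟨(4 * i + 1, 4 * i + 3), by simp [cyc], h⟩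

theorem Sys.R_eq (i : ℕ) : ∃ g ∈ cyc i, S.R i = S.hi g.1 g.2 := by
  unfold Sys.R
  rcases max_choice (max (S.hi (4 * i) (4 * i + 2)) (S.hi (4 * i + 1) (4 * i + 2)))
    (max (S.hi (4 * i) (4 * i + 3)) (S.hi (4 * i + 1) (4 * i + 3))) with h | h
  · rw [h]
    rcases max_choice (S.hi (4 * i) (4 * i + 2)) (S.hi (4 * i + 1) (4 * i + 2)) with h | h
    · exact ⟨(4 * i, 4 * i + 2), by simp [cyc], h⟩
    · exact ⟨(4 * i + 1, 4 * i + 2), by simp [cyc], h⟩
  · rw [h]
    rcases max_choice (S.hi (4 * i) (4 * i + 3)) (S.hi (4 * i + 1) (4 * i + 3)) with h | h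
    · exact ⟨(4 * i, 4 * i + 3), by simp [cyc], h⟩
    · exact ⟨(4 * i + 1, 4 * i + 3), by simp [cyc], h⟩

/-- a slab next to an integer level of an arc -/
theorem Sys.slab {u v : ℕ} (h : S.E u v) {l : ℤ} (h1 : S.Y u ≤ l) (h2 : l ≤ S.Y v) :
    ∃ k : ℤ, S.Y u ≤ k ∧ k < S.Y v ∧ (l = k ∨ l = k + 1) := by
  have := S.lt _ _ h
  by_cases c : l < S.Y v
  · exact ⟨l, h1, c, Or.inl rfl⟩
  · exact ⟨l - 1, by omega, by omega, Or.inr (by omega)⟩

/-- order at an integer level from the order in the adjacent slab -/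
theorem Sys.level {e g : ℕ × ℕ} (he : S.E e.1 e.2) (hg : S.E g.1 g.2) (n1 : g.1 ≠ e.1)
    (n2 : g.2 ≠ e.2) (k : ℤ) (e1 : S.Y e.1 ≤ k) (e2 : k < S.Y e.2) (g1 : S.Y g.1 ≤ k)
    (g2 : k < S.Y g.2) {l : ℤ} (hl : l = k ∨ l = k + 1)  :
    S.F g.1 g.2 ((k : ℝ) + 1 / 2) < S.F e.1 e.2 ((k : ℝ) + 1 / 2) ↔
      S.F g.1 g.2 (l : ℝ) < S.F e.1 e.2 (l : ℝ) := by
  have hne : e ≠ g := fun h => n1 (by rw [h])
  rcases hl with rfl | rfl
  · exact S.lower he hg hne _ e1 e2 g1 g2 (fun h => absurd h n1)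
  · rw [S.upper he hg hne _ e1 e2 g1 g2 (fun h => absurd h n2)]
    push_cast
    rfl

/-- if the cycle `i` is inside the cycle `j` then the bounding box of `i` is strictly inside the
bounding box of `j` -/
theorem Nested.box (N : Nested S m) {i j : ℕ} (hi : i < m) (hj : j < m) (h : i ≠ j)
    (hs : S.side j i = 1) :
    S.L j + 1 ≤ S.L i ∧ S.R i + 1 ≤ S.R j ∧ S.B j + 1 ≤ S.B i ∧ S.U i + 1 ≤ S.U j := by
  have hE := N.cyc_E hj
  have hEi := N.cyc_E hi
  have disj1 : ∀ e ∈ cyc i, ∀ g ∈ cyc j, g.1 ≠ e.1 := by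
    intro e he g hg
    have h1 := cyc_fst he
    have h2 := cyc_fst hg
    omega
  have disj2 : ∀ e ∈ cyc i, ∀ g ∈ cyc j, g.2 ≠ e.2 := by
    intro e he g hg
    have h1 := cyc_snd he
    have h2 := cyc_snd hg
    omega
  have hchi : ∀ e ∈ cyc i, ∀ k : ℤ, S.Y e.1 ≤ k → k < S.Y e.2 → S.chi (cyc j) e k = 1 := by
    intro e he k e1 e2
    rw [S.chi_eq (cyc_even j) hE (hEi e he) (fun h1 => disj1 e he e h1 rfl) k e1 e2,
      N.side_mem hi hj h he, hs]
  refine ⟨?_, ?_, ?_, ?_⟩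
  · obtain ⟨e, he, heq⟩ := Sys.L_eq (S := S) i
    obtain ⟨l, l1, l2, l3⟩ := S.lo_att _ _ (hEi e he)
    obtain ⟨k, k1, k2, k3⟩ := S.slab (hEi e he) l1 l2
    obtain ⟨g, hg, g1, g2, g3⟩ := S.exists_left (hchi e he k k1 k2)
    rw [S.level (hEi e he) (hE g hg) (disj1 e he g hg) (disj2 e he g hg) k k1 k2 g1 g2 k3, l3] at g3
    have h1 := S.lo_le _ _ (hE g hg) (l : ℝ) (by exact_mod_cast (by omega : S.Y g.1 ≤ l))
      (by exact_mod_cast (by omega : l ≤ S.Y g.2))
    have h2 : (S.lo g.1 g.2 : ℝ) < S.lo e.1 e.2 := by linarith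
    have h3 : S.lo g.1 g.2 < S.lo e.1 e.2 := by exact_mod_cast h2
    have h4 := Sys.L_le (S := S) hg
    omega
  · obtain ⟨e, he, heq⟩ := Sys.R_eq (S := S) i
    obtain ⟨l, l1, l2, l3⟩ := S.hi_att _ _ (hEi e he)
    obtain ⟨k, k1, k2, k3⟩ := S.slab (hEi e he) l1 l2
    obtain ⟨g, hg, g1, g2, g3⟩ := S.exists_right (cyc_even j) hE (hEi e he)
      (fun h1 => disj1 e he e h1 rfl) k1 k2 (hchi e he k k1 k2)
    rw [S.level (hE g hg) (hEi e he) (disj1 e he g hg).symm (disj2 e he g hg).symm k g1 g2 k1 k2 k3,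
      l3] at g3
    have h1 := S.le_hi _ _ (hE g hg) (l : ℝ) (by exact_mod_cast (by omega : S.Y g.1 ≤ l))
      (by exact_mod_cast (by omega : l ≤ S.Y g.2))
    have h2 : (S.hi e.1 e.2 : ℝ) < S.hi g.1 g.2 := by linarith
    have h3 : S.hi e.1 e.2 < S.hi g.1 g.2 := by exact_mod_cast h2
    have h4 := Sys.le_R (S := S) hg
    omega
  · -- lowest point
    obtain ⟨e, he, heq⟩ : ∃ e ∈ cyc i, S.B i = S.Y e.1 := by
      unfold Sys.B
      rcases min_choice (S.Y (4 * i)) (S.Y (4 * i + 1)) with h | h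
      · exact ⟨(4 * i, 4 * i + 2), by simp [cyc], h⟩
      · exact ⟨(4 * i + 1, 4 * i + 2), by simp [cyc], h⟩
    have h1 : ∃ g ∈ cyc j, S.Y g.1 < S.Y e.1 := by
      by_contra hcon
      push Not at hcon
      have h2 := S.chi_bot (cyc_even j) hE (s := e.1) (v := e.2) (hEi e he)
        (fun g hg => disj1 e he g hg) hcon
      have h3 := hchi e he (S.Y e.1) le_rfl (S.lt _ _ (hEi e he))
      rw [show ((e.1, e.2) : ℕ × ℕ) = e from rfl, h3] at h2
      exact absurd h2 (by decide)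
    obtain ⟨g, hg, h2⟩ := h1
    have h3 : S.B j ≤ S.Y g.1 := by
      unfold Sys.B
      rcases cyc_fst hg with h | h <;> rw [h] <;> simp
    omega
  · -- highest point
    obtain ⟨e, he, heq⟩ : ∃ e ∈ cyc i, S.U i = S.Y e.2 := by
      unfold Sys.U
      rcases max_choice (S.Y (4 * i + 2)) (S.Y (4 * i + 3)) with h | h
      · exact ⟨(4 * i, 4 * i + 2), by simp [cyc], h⟩
      · exact ⟨(4 * i, 4 * i + 3), by simp [cyc], h⟩
    have h1 : ∃ g ∈ cyc j, S.Y e.2 < S.Y g.2 := by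
      by_contra hcon
      push Not at hcon
      have h2 := S.chi_top (cyc_even j) hE (u := e.1) (w := e.2) (hEi e he)
        (fun g hg => disj2 e he g hg) hcon
      have hl := S.lt _ _ (hEi e he)
      have h3 := hchi e he (S.Y e.2 - 1) (by omega) (by omega)
      rw [show ((e.1, e.2) : ℕ × ℕ) = e from rfl, h3] at h2
      exact absurd h2 (by decide)
    obtain ⟨g, hg, h2⟩ := h1
    have h3 : S.Y g.2 ≤ S.U j := by
      unfold Sys.U
      rcases cyc_snd hg with h | h <;> rw [h] <;> simp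
    omega

theorem Nested.L_le_R (N : Nested S m) {i : ℕ} (hi : i < m) : S.L i ≤ S.R i := by
  have hE := N.a i hi
  have hl := S.lt _ _ hE
  have h1 := S.lo_le _ _ hE (S.Y (4 * i)) le_rfl (by exact_mod_cast hl.le)
  have h2 := S.le_hi _ _ hE (S.Y (4 * i)) le_rfl (by exact_mod_cast hl.le)
  have h3 : (S.lo (4 * i) (4 * i + 2) : ℝ) ≤ S.hi (4 * i) (4 * i + 2) := h1.trans h2
  have h4 : S.lo (4 * i) (4 * i + 2) ≤ S.hi (4 * i) (4 * i + 2) := by exact_mod_cast h3
  have h5 := Sys.L_le (S := S) (i := i) (g := (4 * i, 4 * i + 2)) (by simp [cyc])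
  have h6 := Sys.le_R (S := S) (i := i) (g := (4 * i, 4 * i + 2)) (by simp [cyc])
  exact h5.trans (h4.trans h6)

theorem Nested.B_lt_U (N : Nested S m) {i : ℕ} (hi : i < m) : S.B i + 1 ≤ S.U i := by
  have hl := S.lt _ _ (N.a i hi)
  unfold Sys.B Sys.U
  omega

theorem zmod2_cases (a : ZMod 2) : a = 0 ∨ a = 1 := by
  revert a; decide

/-- **Main theorem on systems**: some cycle has width at least `m - 3` and height at least
`m - 2`. -/
theorem Nested.main (N : Nested S m) (hm : 3 ≤ m) :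
    ∃ i < m, (m : ℤ) - 3 ≤ S.R i - S.L i ∧ (m : ℤ) - 3 ≤ S.U i - S.B i := by
  -- the topmost sink
  obtain ⟨w, hw, hmax⟩ := Finset.exists_max_image
    ((Finset.range m).image (fun i => 4 * i + 2) ∪ (Finset.range m).image (fun i => 4 * i + 3))
    S.Y ⟨2, by
      rw [Finset.mem_union, Finset.mem_image]
      exact Or.inl ⟨0, by simp; omega, by simp⟩⟩
  obtain ⟨i0, hi0, hw'⟩ : ∃ i0, i0 < m ∧ (w = 4 * i0 + 2 ∨ w = 4 * i0 + 3) := by
    rw [Finset.mem_union, Finset.mem_image, Finset.mem_image] at hw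
    rcases hw with ⟨i, hi, rfl⟩ | ⟨i, hi, rfl⟩
    · exact ⟨i, by simpa using hi, Or.inl rfl⟩
    · exact ⟨i, by simpa using hi, Or.inr rfl⟩
  have hmax' : ∀ j < m, ∀ g ∈ cyc j, S.Y g.2 ≤ S.Y w := by
    intro j hj g hg
    apply hmax
    rw [Finset.mem_union, Finset.mem_image, Finset.mem_image]
    rcases cyc_snd hg with h | h
    · exact Or.inl ⟨j, by simpa using hj, h.symm⟩
    · exact Or.inr ⟨j, by simpa using hj, h.symm⟩
  have hout : ∀ j < m, j ≠ i0 → S.side j i0 = 0 := by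
    intro j hj hne
    have key : ∀ g ∈ cyc i0, g.2 = w → S.side j i0 = 0 := by
      intro g hg hgw
      have hEg := N.cyc_E hi0 g hg
      have hl := S.lt _ _ hEg
      have h1 := S.chi_top (cyc_even j) (N.cyc_E hj) (u := g.1) (w := g.2) hEg (fun g' hg' => by
        have h2 := cyc_snd hg
        have h3 := cyc_snd hg'
        omega) (fun g' hg' => by rw [hgw]; exact hmax' j hj g' hg')
      rw [← N.side_mem hi0 hj (Ne.symm hne) hg,
        ← S.chi_eq (cyc_even j) (N.cyc_E hj) hEg (fun h2 => by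
          have h3 := cyc_snd hg
          have h4 := cyc_snd h2
          omega) (S.Y g.2 - 1) (by omega) (by omega)]
      exact h1
    rcases hw' with h | h
    · exact key (4 * i0, 4 * i0 + 2) (by simp [cyc]) h.symm
    · exact key (4 * i0, 4 * i0 + 3) (by simp [cyc]) h.symm
  -- going up in the index
  have up : ∀ j, i0 < j → j + 1 < m → S.side j (j + 1) = 1 := by
    intro j hj hj'
    have h0 : ∀ r : ℕ, i0 + r < j → S.side j (i0 + r) = 0 := by
      intro r
      induction r with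
      | zero => intro h; exact hout j (by omega) (by omega)
      | succ r ih =>
        intro h
        have h1 := N.side_succ (i := i0 + r) (j := j) (by omega) (by omega) (by omega) (by omega)
        rw [ih (by omega)] at h1
        exact h1.symm
    obtain ⟨i, rfl⟩ : ∃ i, j = i + 1 := ⟨j - 1, by omega⟩
    have h1 := N.opposite (i := i) (by omega)
    have h2 := h0 (i - i0) (by omega)
    rw [show i0 + (i - i0) = i by omega] at h2
    rw [h2, zero_add] at h1
    exact h1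
  have down : ∀ j, j + 1 < i0 → S.side (j + 1) j = 1 := by
    intro j hj
    have h0 : ∀ r : ℕ, j + 1 < i0 - r → r ≤ i0 → S.side (j + 1) (i0 - r) = 0 := by
      intro r
      induction r with
      | zero => intro h _; exact hout (j + 1) (by omega) (by omega)
      | succ r ih =>
        intro h h'
        have h1 := N.side_succ (i := i0 - (r + 1)) (j := j + 1) (by omega) (by omega) (by omega)
          (by omega)
        rw [show i0 - (r + 1) + 1 = i0 - r by omega, ih (by omega) (by omega)] at h1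
        exact h1
    have h1 := N.opposite (i := j) (by omega)
    have h2 := h0 (i0 - (j + 2)) (by omega) (by omega)
    rw [show i0 - (i0 - (j + 2)) = j + 2 by omega] at h2
    rw [h2, add_zero] at h1
    exact h1
  -- chains
  have chain_up : ∀ r : ℕ, i0 + 1 + r < m →
      S.L (i0 + 1) + r ≤ S.L (i0 + 1 + r) ∧ S.R (i0 + 1 + r) + r ≤ S.R (i0 + 1) ∧
      S.B (i0 + 1) + r ≤ S.B (i0 + 1 + r) ∧ S.U (i0 + 1 + r) + r ≤ S.U (i0 + 1) := by
    intro r
    induction r with
    | zero => intro _; simp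
    | succ r ih =>
      intro h
      obtain ⟨h1, h2, h3, h4⟩ := ih (by omega)
      obtain ⟨g1, g2, g3, g4⟩ := N.box (i := i0 + 1 + r + 1) (j := i0 + 1 + r) (by omega)
        (by omega) (by omega) (up _ (by omega) (by omega))
      rw [show i0 + 1 + (r + 1) = i0 + 1 + r + 1 by omega]
      push_cast
      omega
  have chain_down : ∀ r : ℕ, r < i0 →
      S.L (i0 - 1) + r ≤ S.L (i0 - 1 - r) ∧ S.R (i0 - 1 - r) + r ≤ S.R (i0 - 1) ∧
      S.B (i0 - 1) + r ≤ S.B (i0 - 1 - r) ∧ S.U (i0 - 1 - r) + r ≤ S.U (i0 - 1) := by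
    intro r
    induction r with
    | zero => intro _; simp
    | succ r ih =>
      intro h
      obtain ⟨h1, h2, h3, h4⟩ := ih (by omega)
      have hs := down (i0 - 1 - (r + 1)) (by omega)
      obtain ⟨g1, g2, g3, g4⟩ := N.box (i := i0 - 1 - (r + 1)) (j := i0 - 1 - (r + 1) + 1)
        (by omega) (by omega) (by omega) hs
      rw [show i0 - 1 - (r + 1) + 1 = i0 - 1 - r by omega] at g1 g2 g3 g4
      push_cast
      omega
  by_cases hcase : m ≤ 2 * i0 + 1
  · -- many cycles below `i0`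
    have hr : i0 - 1 < i0 := by omega
    obtain ⟨h1, h2, h3, h4⟩ := chain_down (i0 - 1) hr
    rw [show i0 - 1 - (i0 - 1) = 0 by omega] at h1 h2 h3 h4
    have h5 := N.L_le_R (i := 0) (by omega)
    have h6 := N.B_lt_U (i := 0) (by omega)
    exact ⟨i0 - 1, by omega, by omega, by omega⟩
  · obtain ⟨h1, h2, h3, h4⟩ := chain_up (m - 2 - i0) (by omega)
    rw [show i0 + 1 + (m - 2 - i0) = m - 1 by omega] at h1 h2 h3 h4
    have h5 := N.L_le_R (i := m - 1) (by omega)
    have h6 := N.B_lt_U (i := m - 1) (by omega)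
    exact ⟨i0 + 1, by omega, by omega, by omega⟩

end Pool.Agent.Y408.BA
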