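import Pool.Agent.Y408.BA.Defs
import Pool.Agent.Y408.BA.Nest

set_option autoImplicit false

namespace Pool.Agent.Y408.BA

/-! ### Evaluation of polygonal chains -/

/-- the `x`-coordinate at height `t` of the line through `p` and `q` -/
noncomputable def lerp (p q : ℤ × ℤ) (t : ℝ) : ℝ :=
  p.1 + ((q.1 : ℝ) - p.1) * ((t - p.2) / ((q.2 : ℝ) - p.2))

theorem lerp_left (p q : ℤ × ℤ) : lerp p q p.2 = p.1 := by
  simp [lerp]

theorem lerp_right {p q : ℤ × ℤ} (h : p.2 < q.2) : lerp p q q.2 = q.1 := by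
  have h' : (p.2 : ℝ) < q.2 := by exact_mod_cast h
  have : ((q.2 : ℝ) - p.2) ≠ 0 := by linarith
  unfold lerp
  rw [div_self this]
  ring

theorem lerp_cont (p q : ℤ × ℤ) : Continuous (lerp p q) := by
  unfold lerp
  fun_prop

theorem lerp_mem {p q : ℤ × ℤ} (h : p.2 < q.2) {t : ℝ} (h1 : (p.2 : ℝ) ≤ t) (h2 : t ≤ q.2) :
    (lerp p q t, t) ∈ segment ℝ (toPlane p) (toPlane q) := by
  have h' : (p.2 : ℝ) < q.2 := by exact_mod_cast h
  have h0 : 0 < ((q.2 : ℝ) - p.2) := by linarith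
  rw [segment_eq_image]
  refine ⟨(t - p.2) / ((q.2 : ℝ) - p.2), ⟨div_nonneg (by linarith) h0.le,
    (div_le_one h0).2 (by linarith)⟩, ?_⟩
  simp only [toPlane, Prod.smul_mk, smul_eq_mul, Prod.mk_add_mk, Prod.mk.injEq]
  constructor
  · unfold lerp
    ring
  · field_simp
    ring

theorem lerp_ge {p q : ℤ × ℤ} (h : p.2 < q.2) {t : ℝ} (h1 : (p.2 : ℝ) ≤ t) (h2 : t ≤ q.2) {c : ℝ}
    (hp : c ≤ p.1) (hq : c ≤ q.1) : c ≤ lerp p q t := by
  have h' : (p.2 : ℝ) < q.2 := by exact_mod_cast h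
  have h0 : 0 < ((q.2 : ℝ) - p.2) := by linarith
  have a0 : 0 ≤ (t - p.2) / ((q.2 : ℝ) - p.2) := div_nonneg (by linarith) h0.le
  have a1 : (t - p.2) / ((q.2 : ℝ) - p.2) ≤ 1 := (div_le_one h0).2 (by linarith)
  unfold lerp
  nlinarith

theorem lerp_le {p q : ℤ × ℤ} (h : p.2 < q.2) {t : ℝ} (h1 : (p.2 : ℝ) ≤ t) (h2 : t ≤ q.2) {c : ℝ}
    (hp : (p.1 : ℝ) ≤ c) (hq : (q.1 : ℝ) ≤ c) : lerp p q t ≤ c := by
  have h' : (p.2 : ℝ) < q.2 := by exact_mod_cast h
  have h0 : 0 < ((q.2 : ℝ) - p.2) := by linarith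
  have a0 : 0 ≤ (t - p.2) / ((q.2 : ℝ) - p.2) := div_nonneg (by linarith) h0.le
  have a1 : (t - p.2) / ((q.2 : ℝ) - p.2) ≤ 1 := (div_le_one h0).2 (by linarith)
  unfold lerp
  nlinarith

/-- the `x`-coordinate at height `t` of the chain through `p` and the points of the list -/
noncomputable def ev : ℤ × ℤ → List (ℤ × ℤ) → ℝ → ℝ
  | p, [], _ => p.1
  | p, q :: L, t => if t ≤ q.2 then lerp p q t else ev q L t

abbrev Inc (L : List (ℤ × ℤ)) : Prop := L.Pairwise (fun p q => p.2 < q.2)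

theorem ev_start : ∀ (p : ℤ × ℤ) (L : List (ℤ × ℤ)), Inc (p :: L) → ev p L p.2 = p.1
  | p, [], _ => rfl
  | p, q :: L, h => by
    have h1 : p.2 < q.2 := by
      have := List.rel_of_pairwise_cons h (a' := q) (by simp)
      exact this
    have h2 : (p.2 : ℝ) ≤ q.2 := by exact_mod_cast h1.le
    rw [ev, if_pos h2, lerp_left]

theorem ev_cont : ∀ (p : ℤ × ℤ) (L : List (ℤ × ℤ)), Inc (p :: L) → Continuous (ev p L)
  | p, [], _ => by
    show Continuous (fun t => ev p [] t)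
    simp only [ev]
    exact continuous_const
  | p, q :: L, h => by
    have h1 : p.2 < q.2 := List.rel_of_pairwise_cons h (a' := q) (by simp)
    have h2 : Inc (q :: L) := List.Pairwise.of_cons h
    show Continuous (fun t => ev p (q :: L) t)
    simp only [ev]
    apply Continuous.if_le (lerp_cont p q) (ev_cont q L h2) continuous_id continuous_const
    intro t ht
    simp only [id] at ht
    rw [ht, lerp_right h1, ev_start q L h2]

theorem ev_at : ∀ (p : ℤ × ℤ) (L : List (ℤ × ℤ)), Inc (p :: L) → ∀ q ∈ p :: L, ev p L q.2 = q.1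
  | p, [], _ => by
    intro q hq
    simp only [List.mem_cons, List.not_mem_nil, or_false] at hq
    rw [hq]; rfl
  | p, r :: L, h => by
    intro q hq
    rw [List.mem_cons] at hq
    have h1 : p.2 < r.2 := List.rel_of_pairwise_cons h (a' := r) (by simp)
    have h2 : Inc (r :: L) := List.Pairwise.of_cons h
    rcases hq with rfl | hq
    · exact ev_start q (r :: L) h
    · rw [List.mem_cons] at hq
      rcases hq with rfl | hq
      · rw [ev, if_pos le_rfl, lerp_right h1]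
      · have h3 : r.2 < q.2 := List.rel_of_pairwise_cons h2 hq
        have h4 : ¬ ((q.2 : ℝ) ≤ r.2) := by
          push Not
          exact_mod_cast h3
        rw [ev, if_neg h4]
        exact ev_at r L h2 q (by simp [hq])

theorem ev_mem : ∀ (p : ℤ × ℤ) (L : List (ℤ × ℤ)) (r : ℤ × ℤ), Inc (p :: (L ++ [r])) → ∀ t : ℝ,
    (p.2 : ℝ) ≤ t → t ≤ r.2 → (ev p (L ++ [r]) t, t) ∈ polygonalChain (p :: (L ++ [r]))
  | p, [], r, h => by
    intro t h1 h2
    have h3 : p.2 < r.2 := List.rel_of_pairwise_cons h (a' := r) (by simp)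
    simp only [List.nil_append, ev, if_pos h2, polygonalChain]
    exact Or.inl (lerp_mem h3 h1 h2)
  | p, q :: L, r, h => by
    intro t h1 h2
    have h3 : p.2 < q.2 := List.rel_of_pairwise_cons h (a' := q) (by simp)
    have h4 : Inc (q :: (L ++ [r])) := List.Pairwise.of_cons h
    simp only [List.cons_append, ev, polygonalChain]
    by_cases c : t ≤ q.2
    · rw [if_pos c]
      exact Or.inl (lerp_mem h3 h1 c)
    · rw [if_neg c]
      exact Or.inr (ev_mem q L r h4 t (by linarith) h2)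

theorem ev_ge : ∀ (p : ℤ × ℤ) (L : List (ℤ × ℤ)), Inc (p :: L) → ∀ c : ℝ,
    (∀ q ∈ p :: L, c ≤ (q.1 : ℝ)) → ∀ t : ℝ, (p.2 : ℝ) ≤ t → c ≤ ev p L t
  | p, [], _ => by
    intro c h t _
    exact h p (by simp)
  | p, q :: L, h => by
    intro c hc t ht
    have h3 : p.2 < q.2 := List.rel_of_pairwise_cons h (a' := q) (by simp)
    have h4 : Inc (q :: L) := List.Pairwise.of_cons h
    simp only [ev]
    by_cases c1 : t ≤ q.2
    · rw [if_pos c1]
      exact lerp_ge h3 ht c1 (hc p (by simp)) (hc q (by simp))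
    · rw [if_neg c1]
      exact ev_ge q L h4 c (fun q' hq' => hc q' (by simp only [List.mem_cons] at hq' ⊢; tauto)) t
        (by linarith)

theorem ev_le : ∀ (p : ℤ × ℤ) (L : List (ℤ × ℤ)), Inc (p :: L) → ∀ c : ℝ,
    (∀ q ∈ p :: L, (q.1 : ℝ) ≤ c) → ∀ t : ℝ, (p.2 : ℝ) ≤ t → ev p L t ≤ c
  | p, [], _ => by
    intro c h t _
    exact h p (by simp)
  | p, q :: L, h => by
    intro c hc t ht
    have h3 : p.2 < q.2 := List.rel_of_pairwise_cons h (a' := q) (by simp)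
    have h4 : Inc (q :: L) := List.Pairwise.of_cons h
    simp only [ev]
    by_cases c1 : t ≤ q.2
    · rw [if_pos c1]
      exact lerp_le h3 ht c1 (hc p (by simp)) (hc q (by simp))
    · rw [if_neg c1]
      exact ev_le q L h4 c (fun q' hq' => hc q' (by simp only [List.mem_cons] at hq' ⊢; tauto)) t
        (by linarith)

theorem exists_min (L : List (ℤ × ℤ)) (hL : L ≠ []) : ∃ q ∈ L, ∀ q' ∈ L, q.1 ≤ q'.1 := by
  obtain ⟨q, hq, h⟩ := Finset.exists_min_image L.toFinset Prod.fst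
    (by obtain ⟨a, ha⟩ := List.exists_mem_of_ne_nil L hL; exact ⟨a, by simpa using ha⟩)
  exact ⟨q, by simpa using hq, fun q' hq' => h q' (by simpa using hq')⟩

theorem exists_max (L : List (ℤ × ℤ)) (hL : L ≠ []) : ∃ q ∈ L, ∀ q' ∈ L, q'.1 ≤ q.1 := by
  obtain ⟨q, hq, h⟩ := Finset.exists_max_image L.toFinset Prod.fst
    (by obtain ⟨a, ha⟩ := List.exists_mem_of_ne_nil L hL; exact ⟨a, by simpa using ha⟩)
  exact ⟨q, by simpa using hq, fun q' hq' => h q' (by simpa using hq')⟩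

/-- the list of the points of an arc -/
def PolyLineDrawing.pts {n : ℕ} {G : BipartiteDAG n} (D : PolyLineDrawing G) (u v : Fin n) :
    List (ℤ × ℤ) := D.pos u :: (D.bends u v ++ [D.pos v])

noncomputable def PolyLineDrawing.lo {n : ℕ} {G : BipartiteDAG n} (D : PolyLineDrawing G)
    (u v : Fin n) : ℤ × ℤ := (exists_min (D.pts u v) (by simp [PolyLineDrawing.pts])).choose

theorem PolyLineDrawing.lo_spec {n : ℕ} {G : BipartiteDAG n} (D : PolyLineDrawing G)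
    (u v : Fin n) : D.lo u v ∈ D.pts u v ∧ ∀ q' ∈ D.pts u v, (D.lo u v).1 ≤ q'.1 :=
  (exists_min (D.pts u v) (by simp [PolyLineDrawing.pts])).choose_spec

noncomputable def PolyLineDrawing.hi {n : ℕ} {G : BipartiteDAG n} (D : PolyLineDrawing G)
    (u v : Fin n) : ℤ × ℤ := (exists_max (D.pts u v) (by simp [PolyLineDrawing.pts])).choose

theorem PolyLineDrawing.hi_spec {n : ℕ} {G : BipartiteDAG n} (D : PolyLineDrawing G)
    (u v : Fin n) : D.hi u v ∈ D.pts u v ∧ ∀ q' ∈ D.pts u v, q'.1 ≤ (D.hi u v).1 :=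
  (exists_max (D.pts u v) (by simp [PolyLineDrawing.pts])).choose_spec

theorem pts_range {n : ℕ} {G : BipartiteDAG n} (D : PolyLineDrawing G) {u v : Fin n}
    (h : G.Adj u v) {q : ℤ × ℤ} (hq : q ∈ D.pts u v) :
    (D.pos u).2 ≤ q.2 ∧ q.2 ≤ (D.pos v).2 := by
  have hI := D.upward u v h
  unfold PolyLineDrawing.pts at hq
  rw [List.mem_cons] at hq
  rw [List.pairwise_cons, List.pairwise_append] at hI
  obtain ⟨h1, _, _, h2⟩ := hI
  have h3 := h1 (D.pos v) (by simp)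
  rcases hq with rfl | hq
  · exact ⟨le_rfl, h3.le⟩
  · refine ⟨(h1 q hq).le, ?_⟩
    rw [List.mem_append, List.mem_singleton] at hq
    rcases hq with hq | rfl
    · exact (h2 q hq (D.pos v) (by simp)).le
    · exact le_rfl

open Classical in
/-- the system of upward curves of a drawing -/
noncomputable def PolyLineDrawing.sys {n : ℕ} {G : BipartiteDAG n} (D : PolyLineDrawing G) :
    Sys where
  X v := if h : v < n then ((D.pos ⟨v, h⟩).1 : ℝ) else 0
  Y v := if h : v < n then (D.pos ⟨v, h⟩).2 else 0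
  E u v := ∃ (hu : u < n) (hv : v < n), G.Adj ⟨u, hu⟩ ⟨v, hv⟩
  F u v := if h : u < n ∧ v < n then
    ev (D.pos ⟨u, h.1⟩) (D.bends ⟨u, h.1⟩ ⟨v, h.2⟩ ++ [D.pos ⟨v, h.2⟩]) else 0
  lo u v := if h : u < n ∧ v < n then (D.lo ⟨u, h.1⟩ ⟨v, h.2⟩).1 else 0
  hi u v := if h : u < n ∧ v < n then (D.hi ⟨u, h.1⟩ ⟨v, h.2⟩).1 else 0
  cont := by
    rintro u v ⟨hu, hv, h⟩
    rw [dif_pos ⟨hu, hv⟩]
    exact ev_cont _ _ (D.upward _ _ h)
  lt := by
    rintro u v ⟨hu, hv, h⟩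
    rw [dif_pos hu, dif_pos hv]
    have := D.upward _ _ h
    rw [List.pairwise_cons] at this
    exact this.1 _ (by simp)
  bot := by
    rintro u v ⟨hu, hv, h⟩
    rw [dif_pos ⟨hu, hv⟩, dif_pos hu, dif_pos hu]
    exact ev_start _ _ (D.upward _ _ h)
  top := by
    rintro u v ⟨hu, hv, h⟩
    rw [dif_pos ⟨hu, hv⟩, dif_pos hv, dif_pos hv]
    exact ev_at _ _ (D.upward _ _ h) _ (by simp)
  ne := by
    rintro u v u' v' ⟨hu, hv, h⟩ ⟨hu', hv', h'⟩ hne t t1 t2 t3 t4 heq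
    rw [dif_pos hu] at t1
    rw [dif_pos hv] at t2
    rw [dif_pos hu'] at t3
    rw [dif_pos hv'] at t4
    rw [dif_pos ⟨hu, hv⟩, dif_pos ⟨hu', hv'⟩] at heq
    have m1 := ev_mem _ _ _ (D.upward _ _ h) t t1 t2
    have m2 := ev_mem _ _ _ (D.upward _ _ h') t t3 t4
    rw [← heq] at m2
    obtain ⟨w, w1, w2, w3⟩ := D.noncrossing _ _ _ _ h h' (by
      intro h0
      apply hne
      simp only [Prod.mk.injEq, Fin.mk.injEq] at h0 ⊢
      exact h0) _ m1 m2
    have h3 : t = ((D.pos w).2 : ℝ) := by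
      have := congrArg Prod.snd w3
      simpa [toPlane] using this
    have a1 := G.arc _ _ h
    have a2 := G.arc _ _ h'
    rw [dif_pos hu, dif_pos hv]
    rcases w1 with rfl | rfl
    · rcases w2 with w2 | w2
      · left
        simp only [Fin.mk.injEq] at w2
        exact ⟨w2, h3⟩
      · exfalso
        rw [← w2] at a2
        exact a2.2 a1.1
    · rcases w2 with w2 | w2
      · exfalso
        rw [← w2] at a2
        exact a1.2 a2.1
      · right
        simp only [Fin.mk.injEq] at w2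
        exact ⟨w2, h3⟩
  lo_le := by
    rintro u v ⟨hu, hv, h⟩ t t1 t2
    rw [dif_pos hu] at t1
    rw [dif_pos ⟨hu, hv⟩, dif_pos ⟨hu, hv⟩]
    apply ev_ge _ _ (D.upward _ _ h) _ _ t t1
    intro q hq
    exact_mod_cast (D.lo_spec _ _).2 q hq
  le_hi := by
    rintro u v ⟨hu, hv, h⟩ t t1 t2
    rw [dif_pos hu] at t1
    rw [dif_pos ⟨hu, hv⟩, dif_pos ⟨hu, hv⟩]
    apply ev_le _ _ (D.upward _ _ h) _ _ t t1
    intro q hq
    exact_mod_cast (D.hi_spec _ _).2 q hq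
  lo_att := by
    rintro u v ⟨hu, hv, h⟩
    obtain ⟨h1, _⟩ := D.lo_spec ⟨u, hu⟩ ⟨v, hv⟩
    obtain ⟨h3, h4⟩ := pts_range D h h1
    rw [dif_pos hu, dif_pos hv, dif_pos ⟨hu, hv⟩, dif_pos ⟨hu, hv⟩]
    exact ⟨_, h3, h4, ev_at _ _ (D.upward _ _ h) _ h1⟩
  hi_att := by
    rintro u v ⟨hu, hv, h⟩
    obtain ⟨h1, _⟩ := D.hi_spec ⟨u, hu⟩ ⟨v, hv⟩
    obtain ⟨h3, h4⟩ := pts_range D h h1
    rw [dif_pos hu, dif_pos hv, dif_pos ⟨hu, hv⟩, dif_pos ⟨hu, hv⟩]
    exact ⟨_, h3, h4, ev_at _ _ (D.upward _ _ h) _ h1⟩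

/-! ### The graphs -/

/-- arcs of the infinite nested graph -/
def narc (a b : ℕ) : Prop :=
  (a % 4 < 2 ∧ 2 ≤ b % 4 ∧ a / 4 = b / 4) ∨ (a % 4 < 2 ∧ b % 4 = a % 4 + 2 ∧ a / 4 = b / 4 + 1)

/-- the nested graph on `n` vertices -/
def Gn (n : ℕ) : BipartiteDAG n where
  Adj u v := narc u v
  V₁ := {v | (v : ℕ) % 4 < 2}
  arc u v h := by
    simp only [Set.mem_ofPred_eq]
    unfold narc at h
    omega

theorem gn_nested {n : ℕ} (D : PolyLineDrawing (Gn n)) : Nested D.sys (n / 4) where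
  a i hi := ⟨by omega, by omega, by show narc _ _; simp only [narc]; omega⟩
  b i hi := ⟨by omega, by omega, by show narc _ _; simp only [narc]; omega⟩
  c i hi := ⟨by omega, by omega, by show narc _ _; simp only [narc]; omega⟩
  d i hi := ⟨by omega, by omega, by show narc _ _; simp only [narc]; omega⟩
  x i hi := ⟨by omega, by omega, by show narc _ _; simp only [narc]; omega⟩
  y i hi := ⟨by omega, by omega, by show narc _ _; simp only [narc]; omega⟩

theorem pts_box {n : ℕ} {G : BipartiteDAG n} (D : PolyLineDrawing G) {x₀ y₀ : ℤ} {W H : ℕ}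
    (hb : D.InBox x₀ y₀ W H) {u v : Fin n} (h : G.Adj u v) {q : ℤ × ℤ} (hq : q ∈ D.pts u v) :
    x₀ ≤ q.1 ∧ q.1 ≤ x₀ + W := by
  unfold PolyLineDrawing.pts at hq
  rw [List.mem_cons, List.mem_append, List.mem_singleton] at hq
  rcases hq with rfl | hq | rfl
  · exact ⟨(hb.1 _).1, (hb.1 _).2.1⟩
  · exact ⟨(hb.2 u v h q hq).1, (hb.2 u v h q hq).2.1⟩
  · exact ⟨(hb.1 _).1, (hb.1 _).2.1⟩

theorem box_bound {n : ℕ} (hn : 12 ≤ n) (D : PolyLineDrawing (Gn n)) {x₀ y₀ : ℤ} {W H : ℕ}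
    (hb : D.InBox x₀ y₀ W H) : n / 4 - 3 ≤ W ∧ n / 4 - 3 ≤ H := by
  have N := gn_nested D
  obtain ⟨i, hi, h1, h2⟩ := N.main (by omega)
  obtain ⟨g, hg, hg'⟩ := Sys.L_eq (S := D.sys) i
  obtain ⟨k, hk, hk'⟩ := Sys.R_eq (S := D.sys) i
  obtain ⟨gu, gv, gE⟩ := N.cyc_E hi g hg
  obtain ⟨ku, kv, kE⟩ := N.cyc_E hi k hk
  have e1 : D.sys.lo g.1 g.2 = (D.lo ⟨g.1, gu⟩ ⟨g.2, gv⟩).1 := by
    show dite _ _ _ = _
    rw [dif_pos ⟨gu, gv⟩]
  have e2 : D.sys.hi k.1 k.2 = (D.hi ⟨k.1, ku⟩ ⟨k.2, kv⟩).1 := by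
    show dite _ _ _ = _
    rw [dif_pos ⟨ku, kv⟩]
  have b1 := pts_box D hb gE (D.lo_spec _ _).1
  have b2 := pts_box D hb kE (D.hi_spec _ _).1
  have yb : ∀ v, v < n → y₀ ≤ D.sys.Y v ∧ D.sys.Y v ≤ y₀ + H := by
    intro v hv
    have e3 : D.sys.Y v = (D.pos ⟨v, hv⟩).2 := by
      show dite _ _ _ = _
      rw [dif_pos hv]
    rw [e3]
    exact ⟨(hb.1 _).2.2.1, (hb.1 _).2.2.2⟩
  have y1 := yb (4 * i) (by omega)
  have y2 := yb (4 * i + 1) (by omega)
  have y3 := yb (4 * i + 2) (by omega)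
  have y4 := yb (4 * i + 3) (by omega)
  rw [hg', hk', e1, e2] at h1
  unfold Sys.U Sys.B at h2
  constructor
  · omega
  · omega

end Pool.Agent.Y408.BA
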