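import Mathlib

/-!
Poly-line upward planar grid drawings of bipartite DAGs and their area.
-/

set_option autoImplicit false

namespace Pool.Agent.Y408.BA

/-- A bipartite DAG with vertex set `Fin n`: every arc goes from the class `V₁` to its
complement. -/
structure BipartiteDAG (n : ℕ) where
  Adj : Fin n → Fin n → Prop
  V₁ : Set (Fin n)
  arc : ∀ u v, Adj u v → u ∈ V₁ ∧ v ∉ V₁

/-- The point of the real plane given by a grid point. -/
def toPlane (p : ℤ × ℤ) : ℝ × ℝ := ((p.1 : ℝ), (p.2 : ℝ))

/-- The polygonal chain through a list of grid points, as a subset of the plane. -/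
def polygonalChain : List (ℤ × ℤ) → Set (ℝ × ℝ)
  | [] => ∅
  | [p] => {toPlane p}
  | p :: q :: L => segment ℝ (toPlane p) (toPlane q) ∪ polygonalChain (q :: L)

/-- A poly-line upward planar grid drawing: the vertices are distinct grid points, the arc
`u → v` is the polygonal chain from `pos u` to `pos v` with the grid points `bends u v` as its
bends, the `y`-coordinate increases strictly along every arc, two distinct arcs meet only at the
point of a common endpoint, and no arc passes through a vertex that is not one of its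
endpoints. -/
structure PolyLineDrawing {n : ℕ} (G : BipartiteDAG n) where
  pos : Fin n → ℤ × ℤ
  pos_inj : Function.Injective pos
  bends : Fin n → Fin n → List (ℤ × ℤ)
  upward : ∀ u v, G.Adj u v →
    (pos u :: (bends u v ++ [pos v])).Pairwise (fun p q => p.2 < q.2)
  noncrossing : ∀ u v u' v', G.Adj u v → G.Adj u' v' → (u, v) ≠ (u', v') →
    ∀ z, z ∈ polygonalChain (pos u :: (bends u v ++ [pos v])) →
      z ∈ polygonalChain (pos u' :: (bends u' v' ++ [pos v'])) →
      ∃ w, (w = u ∨ w = v) ∧ (w = u' ∨ w = v') ∧ z = toPlane (pos w)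
  vertex_free : ∀ u v w, G.Adj u v →
    toPlane (pos w) ∈ polygonalChain (pos u :: (bends u v ++ [pos v])) → w = u ∨ w = v

/-- The drawing lies in the axis-parallel rectangle `[x₀, x₀ + W] × [y₀, y₀ + H]`. -/
def PolyLineDrawing.InBox {n : ℕ} {G : BipartiteDAG n} (D : PolyLineDrawing G)
    (x₀ y₀ : ℤ) (W H : ℕ) : Prop :=
  (∀ v, x₀ ≤ (D.pos v).1 ∧ (D.pos v).1 ≤ x₀ + W ∧ y₀ ≤ (D.pos v).2 ∧ (D.pos v).2 ≤ y₀ + H) ∧
  ∀ u v, G.Adj u v → ∀ p ∈ D.bends u v,
    x₀ ≤ p.1 ∧ p.1 ≤ x₀ + W ∧ y₀ ≤ p.2 ∧ p.2 ≤ y₀ + H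

/-- The area of a drawing: the least `W * H` over all rectangles with integer corners, of
width `W` and height `H`, that contain the drawing. -/
noncomputable def PolyLineDrawing.area {n : ℕ} {G : BipartiteDAG n} (D : PolyLineDrawing G) : ℕ :=
  sInf {a | ∃ (x₀ y₀ : ℤ) (W H : ℕ), D.InBox x₀ y₀ W H ∧ a = W * H}

/-- The minimum area of a poly-line upward planar grid drawing of `G`. -/
noncomputable def minArea {n : ℕ} (G : BipartiteDAG n) : ℕ :=
  sInf {a | ∃ D : PolyLineDrawing G, a = D.area}

/-- `Ap n`: the maximum, over all `n`-vertex bipartite DAGs that have a drawing, of the minimum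
area of a poly-line upward planar grid drawing. -/
noncomputable def Ap (n : ℕ) : ℕ :=
  sSup {a | ∃ G : BipartiteDAG n, Nonempty (PolyLineDrawing G) ∧ a = minArea G}

end Pool.Agent.Y408.BA
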