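import Pool.Agent.Y408.BA.Conv

set_option autoImplicit false

namespace Pool.Agent.Y408.BA

/-- the positions of the vertices in a straight-line drawing of the nested graph -/
def npos (n : ℤ) (v : ℕ) : ℤ × ℤ :=
  if v % 4 = 0 then (-(2 * n + 2 - (v / 4 : ℕ)), (v / 4 : ℕ))
  else if v % 4 = 1 then (2 * n + 2 - (v / 4 : ℕ), (v / 4 : ℕ))
  else if v % 4 = 2 then (0, 3 * n + 2 - (v / 4 : ℕ))
  else (0, n + 2 + (v / 4 : ℕ))

theorem npos_inj {n v w : ℕ} (hv : v < n) (hw : w < n) (h : npos n v = npos n w) : v = w := by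
  have h1 : v / 4 < n := by omega
  have h2 : w / 4 < n := by omega
  unfold npos at h
  split_ifs at h <;> simp only [Prod.mk.injEq] at h <;> omega

/-- source positions: `(± a, 2 n + 2 - a)` -/
theorem npos_src {n v : ℕ} (hv : v < n) (h : v % 4 < 2) :
    ∃ (s a : ℤ), (s = 1 ∨ s = -1) ∧ n + 2 ≤ a ∧ a = 2 * n + 2 - (v / 4 : ℕ) ∧
      (s = -1 ↔ v % 4 = 0) ∧ npos n v = (s * a, 2 * n + 2 - a) := by
  by_cases c : v % 4 = 0
  · refine ⟨-1, 2 * n + 2 - (v / 4 : ℕ), Or.inr rfl, by omega, rfl, by simp [c], ?_⟩
    rw [npos, if_pos c]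
    simp only [Prod.mk.injEq]
    constructor <;> ring
  · refine ⟨1, 2 * n + 2 - (v / 4 : ℕ), Or.inl rfl, by omega, rfl, by simp [c], ?_⟩
    rw [npos, if_neg c, if_pos (by omega)]
    simp only [Prod.mk.injEq]
    constructor <;> ring

/-- sink positions: `(0, 2 n + 2 ± d)` -/
theorem npos_snk {n v : ℕ} (hv : v < n) (h : 2 ≤ v % 4) :
    ∃ (s d : ℤ), (s = 1 ∨ s = -1) ∧ 1 ≤ d ∧ d ≤ n ∧ d = n - (v / 4 : ℕ) ∧
      (s = 1 ↔ v % 4 = 2) ∧ npos n v = (0, 2 * n + 2 + s * d) := by
  by_cases c : v % 4 = 2
  · refine ⟨1, n - (v / 4 : ℕ), Or.inl rfl, by omega, by omega, rfl, by simp [c], ?_⟩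
    rw [npos, if_neg (by omega), if_neg (by omega), if_pos c]
    simp only [Prod.mk.injEq]
    exact ⟨trivial, by ring⟩
  · refine ⟨-1, n - (v / 4 : ℕ), Or.inr rfl, by omega, by omega, rfl, by simp [c], ?_⟩
    rw [npos, if_neg (by omega), if_neg (by omega), if_neg c]
    simp only [Prod.mk.injEq]
    exact ⟨trivial, by ring⟩

/-- the pure computation behind planarity: the points `(1 - l) * (s a) `, `l * (e d)` -/
theorem meet {s a e d s' a' e' d' l l' : ℝ} (hs : s = 1 ∨ s = -1) (hs' : s' = 1 ∨ s' = -1)
    (he : e = 1 ∨ e = -1) (he' : e' = 1 ∨ e' = -1) (ha : 0 < a) (ha' : 0 < a') (hd : 0 < d)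
    (hd' : 0 < d') (l0 : 0 ≤ l) (l1 : l ≤ 1) (l0' : 0 ≤ l') (l1' : l' ≤ 1)
    (hc : (a ≤ a' ∧ d ≤ d') ∨ (a' ≤ a ∧ d' ≤ d))
    (h1 : (1 - l) * (s * a) = (1 - l') * (s' * a'))
    (h2 : l * (e * d) - (1 - l) * a = l' * (e' * d') - (1 - l') * a') :
    (l = 0 ∧ s = s' ∧ a = a') ∨ (l = 1 ∧ e = e' ∧ d = d') ∨
      (s = s' ∧ a = a' ∧ e = e' ∧ d = d') := by
  by_cases hss : s = s'
  · subst hss
    have h3 : (1 - l) * a = (1 - l') * a' := by
      rcases hs with rfl | rfl
      · linarith
      · linarith
    have h4 : l * (e * d) = l' * (e' * d') := by linarith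
    by_cases hee : e = e'
    · subst hee
      have h5 : l * d = l' * d' := by
        rcases he with rfl | rfl
        · linarith
        · linarith
      have h6 : l = l' := by
        rcases hc with ⟨c1, c2⟩ | ⟨c1, c2⟩
        · have k1 : l' ≤ l := by
            by_contra hlt
            push Not at hlt
            nlinarith
          have k2 : l ≤ l' := by
            by_contra hlt
            push Not at hlt
            nlinarith
          linarith
        · have k1 : l' ≤ l := by
            by_contra hlt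
            push Not at hlt
            nlinarith
          have k2 : l ≤ l' := by
            by_contra hlt
            push Not at hlt
            nlinarith
          linarith
      subst h6
      by_cases z : l = 0
      · left
        subst z
        exact ⟨rfl, rfl, by linarith⟩
      · by_cases o : l = 1
        · right; left
          subst o
          exact ⟨rfl, rfl, by linarith⟩
        · right; right
          refine ⟨rfl, ?_, rfl, ?_⟩
          · exact mul_left_cancel₀ (sub_ne_zero.2 (Ne.symm o)) h3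
          · exact mul_left_cancel₀ z h5
    · -- opposite signs
      have h5 : l * d + l' * d' = 0 := by
        rcases he with rfl | rfl <;> rcases he' with rfl | rfl
        · exact absurd rfl hee
        · linarith
        · linarith
        · exact absurd rfl hee
      have k1 : 0 ≤ l * d := mul_nonneg l0 hd.le
      have k2 : 0 ≤ l' * d' := mul_nonneg l0' hd'.le
      have k3 : l = 0 := by
        have : l * d = 0 := by linarith
        rcases mul_eq_zero.1 this with h | h
        · exact h
        · linarith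
      have k4 : l' = 0 := by
        have : l' * d' = 0 := by linarith
        rcases mul_eq_zero.1 this with h | h
        · exact h
        · linarith
      left
      subst k3 k4
      exact ⟨rfl, rfl, by linarith⟩
  · have h3 : (1 - l) * a + (1 - l') * a' = 0 := by
      rcases hs with rfl | rfl <;> rcases hs' with rfl | rfl
      · exact absurd rfl hss
      · linarith
      · linarith
      · exact absurd rfl hss
    have k1 : 0 ≤ (1 - l) * a := mul_nonneg (by linarith) ha.le
    have k2 : 0 ≤ (1 - l') * a' := mul_nonneg (by linarith) ha'.le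
    have k3 : l = 1 := by
      have : (1 - l) * a = 0 := by linarith
      rcases mul_eq_zero.1 this with h | h
      · linarith
      · linarith
    have k4 : l' = 1 := by
      have : (1 - l') * a' = 0 := by linarith
      rcases mul_eq_zero.1 this with h | h
      · linarith
      · linarith
    subst k3 k4
    right; left
    have h4 : e * d = e' * d' := by linarith
    rcases he with rfl | rfl <;> rcases he' with rfl | rfl
    · exact ⟨rfl, rfl, by linarith⟩
    · exfalso; linarith
    · exfalso; linarith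
    · exact ⟨rfl, rfl, by linarith⟩

theorem chain_two (p q : ℤ × ℤ) : polygonalChain (p :: ([] ++ [q])) =
    segment ℝ (toPlane p) (toPlane q) := by
  simp only [List.nil_append, polygonalChain]
  apply Set.union_eq_self_of_subset_right
  rw [Set.singleton_subset_iff]
  exact right_mem_segment ℝ _ _

theorem seg_param {p q : ℤ × ℤ} {z : ℝ × ℝ} (h : z ∈ segment ℝ (toPlane p) (toPlane q)) :
    ∃ l : ℝ, 0 ≤ l ∧ l ≤ 1 ∧ z = ((1 - l) * p.1 + l * q.1, (1 - l) * p.2 + l * q.2) := by
  rw [segment_eq_image] at h
  obtain ⟨l, ⟨l0, l1⟩, rfl⟩ := h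
  exact ⟨l, l0, l1, by simp [toPlane]⟩

/-- a straight-line drawing of the nested graph -/
noncomputable def gnDrawing (n : ℕ) : PolyLineDrawing (Gn n) where
  pos v := npos n v
  pos_inj v w h := Fin.ext (npos_inj v.2 w.2 h)
  bends _ _ := []
  upward := by
    intro u v h
    have h' : narc u v := h
    have hu : (u : ℕ) % 4 < 2 := by unfold narc at h'; omega
    have hv : 2 ≤ (v : ℕ) % 4 := by unfold narc at h'; omega
    have hij : (u : ℕ) / 4 ≤ (v : ℕ) / 4 + 1 := by unfold narc at h'; omega
    have h1 : (u : ℕ) / 4 < n := by omega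
    have h2 : (v : ℕ) / 4 < n := by omega
    simp only [List.nil_append, List.pairwise_cons, List.mem_singleton, forall_eq,
      List.not_mem_nil, false_imp_iff, implies_true, List.Pairwise.nil, and_true]
    unfold npos
    split_ifs <;> simp only <;> omega
  noncrossing := by
    intro u v u' v' h h' hne z hz hz'
    rw [chain_two] at hz hz'
    have h0 : narc u v := h
    have h0' : narc u' v' := h'
    have hu : (u : ℕ) % 4 < 2 := by unfold narc at h0; omega
    have hv : 2 ≤ (v : ℕ) % 4 := by unfold narc at h0; omega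
    have hu' : (u' : ℕ) % 4 < 2 := by unfold narc at h0'; omega
    have hv' : 2 ≤ (v' : ℕ) % 4 := by unfold narc at h0'; omega
    obtain ⟨s, a, hs, ha, hau, hsu, pu⟩ := npos_src u.2 hu
    obtain ⟨s', a', hs', ha', hau', hsu', pu'⟩ := npos_src u'.2 hu'
    obtain ⟨e, d, he, hd, _, hdv, hev, pv⟩ := npos_snk v.2 hv
    obtain ⟨e', d', he', hd', _, hdv', hev', pv'⟩ := npos_snk v'.2 hv'
    obtain ⟨l, l0, l1, hl⟩ := seg_param hz
    obtain ⟨l', l0', l1', hl'⟩ := seg_param hz'
    rw [pu, pv] at hl
    rw [pu', pv'] at hl'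
    have e1 := congrArg Prod.fst (hl.symm.trans hl')
    have e2 := congrArg Prod.snd (hl.symm.trans hl')
    push_cast at e1 e2
    simp only [mul_zero, add_zero] at e1
    have hsR : (s : ℝ) = 1 ∨ (s : ℝ) = -1 := by
      rcases hs with rfl | rfl
      · left; simp
      · right; simp
    have hsR' : (s' : ℝ) = 1 ∨ (s' : ℝ) = -1 := by
      rcases hs' with rfl | rfl
      · left; simp
      · right; simp
    have heR : (e : ℝ) = 1 ∨ (e : ℝ) = -1 := by
      rcases he with rfl | rfl
      · left; simp
      · right; simp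
    have heR' : (e' : ℝ) = 1 ∨ (e' : ℝ) = -1 := by
      rcases he' with rfl | rfl
      · left; simp
      · right; simp
    have haR : (0 : ℝ) < a := by exact_mod_cast (by omega : 0 < a)
    have haR' : (0 : ℝ) < a' := by exact_mod_cast (by omega : 0 < a')
    have hdR : (0 : ℝ) < d := by exact_mod_cast (by omega : 0 < d)
    have hdR' : (0 : ℝ) < d' := by exact_mod_cast (by omega : 0 < d')
    have hcR : ((a : ℝ) ≤ a' ∧ (d : ℝ) ≤ d') ∨ ((a' : ℝ) ≤ a ∧ (d' : ℝ) ≤ d) := by
      have : (a ≤ a' ∧ d ≤ d') ∨ (a' ≤ a ∧ d' ≤ d) := by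
        unfold narc at h0 h0'
        omega
      rcases this with ⟨c1, c2⟩ | ⟨c1, c2⟩
      · left; exact ⟨by exact_mod_cast c1, by exact_mod_cast c2⟩
      · right; exact ⟨by exact_mod_cast c1, by exact_mod_cast c2⟩
    have key := meet hsR hsR' heR heR' haR haR' hdR hdR' l0 l1 l0' l1' hcR (by linarith)
      (by linarith)
    rcases key with ⟨k1, k2, k3⟩ | ⟨k1, k2, k3⟩ | ⟨k1, k2, k3, k4⟩
    · have k2' : s = s' := by exact_mod_cast k2
      have k3' : a = a' := by exact_mod_cast k3
      have huu : u = u' := by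
        apply Fin.ext
        have : (u : ℕ) / 4 = (u' : ℕ) / 4 := by omega
        have h3 : (u : ℕ) % 4 = (u' : ℕ) % 4 := by
          rw [k2'] at hsu
          have := hsu.symm.trans hsu'
          omega
        omega
      refine ⟨u, Or.inl rfl, Or.inl huu, ?_⟩
      rw [hl, k1, pu]
      simp [toPlane]
    · have k2' : e = e' := by exact_mod_cast k2
      have k3' : d = d' := by exact_mod_cast k3
      have hvv : v = v' := by
        apply Fin.ext
        have : (v : ℕ) / 4 = (v' : ℕ) / 4 := by omega
        have h3 : (v : ℕ) % 4 = (v' : ℕ) % 4 := by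
          rw [k2'] at hev
          have := hev.symm.trans hev'
          omega
        omega
      refine ⟨v, Or.inr rfl, Or.inr hvv, ?_⟩
      rw [hl, k1, pv]
      simp [toPlane]
    · exfalso
      apply hne
      have k1' : s = s' := by exact_mod_cast k1
      have k2' : a = a' := by exact_mod_cast k2
      have k3' : e = e' := by exact_mod_cast k3
      have k4' : d = d' := by exact_mod_cast k4
      have huu : u = u' := by
        apply Fin.ext
        have : (u : ℕ) / 4 = (u' : ℕ) / 4 := by omega
        have h3 : (u : ℕ) % 4 = (u' : ℕ) % 4 := by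
          rw [k1'] at hsu
          have := hsu.symm.trans hsu'
          omega
        omega
      have hvv : v = v' := by
        apply Fin.ext
        have : (v : ℕ) / 4 = (v' : ℕ) / 4 := by omega
        have h3 : (v : ℕ) % 4 = (v' : ℕ) % 4 := by
          rw [k3'] at hev
          have := hev.symm.trans hev'
          omega
        omega
      rw [huu, hvv]
  vertex_free := by
    intro u v w h hz
    rw [chain_two] at hz
    have h0 : narc u v := h
    have hu : (u : ℕ) % 4 < 2 := by unfold narc at h0; omega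
    have hv : 2 ≤ (v : ℕ) % 4 := by unfold narc at h0; omega
    obtain ⟨s, a, hs, ha, hau, hsu, pu⟩ := npos_src u.2 hu
    obtain ⟨e, d, he, hd, _, hdv, hev, pv⟩ := npos_snk v.2 hv
    obtain ⟨l, l0, l1, hl⟩ := seg_param hz
    rw [pu, pv] at hl
    have haR : (0 : ℝ) < a := by exact_mod_cast (by omega : 0 < a)
    have hdR : (0 : ℝ) < d := by exact_mod_cast (by omega : 0 < d)
    have inj : ∀ x y : Fin n, toPlane (npos n x) = toPlane (npos n y) → x = y := by
      intro x y hxy
      apply Fin.ext
      apply npos_inj x.2 y.2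
      simp only [toPlane, Prod.mk.injEq, Int.cast_inj] at hxy
      exact Prod.ext hxy.1 hxy.2
    by_cases c : (w : ℕ) % 4 < 2
    · obtain ⟨s', a', hs', ha', hau', hsu', pw⟩ := npos_src w.2 c
      have haR' : (0 : ℝ) < a' := by exact_mod_cast (by omega : 0 < a')
      have hl0 := hl
      rw [pw] at hl
      simp only [toPlane, Prod.mk.injEq] at hl
      obtain ⟨e1, e2⟩ := hl
      push_cast at e1 e2
      have h3 : l * ((e : ℝ) * d) = 0 := by
        rcases hs with rfl | rfl <;> rcases hs' with rfl | rfl
        · push_cast at e1; linarith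
        · push_cast at e1
          have : 0 ≤ (1 - l) * a := mul_nonneg (by linarith) haR.le
          linarith
        · push_cast at e1
          have : 0 ≤ (1 - l) * a := mul_nonneg (by linarith) haR.le
          linarith
        · push_cast at e1; linarith
      have h4 : l = 0 := by
        rcases mul_eq_zero.1 h3 with h | h
        · exact h
        · exfalso
          rcases he with rfl | rfl
          · push_cast at h; linarith
          · push_cast at h; linarith
      left
      apply inj
      rw [hl0, h4, pu]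
      simp [toPlane]
    · obtain ⟨e', d', he', hd', _, hdv', hev', pw⟩ := npos_snk w.2 (by omega)
      have hl0 := hl
      rw [pw] at hl
      simp only [toPlane, Prod.mk.injEq] at hl
      obtain ⟨e1, e2⟩ := hl
      push_cast at e1 e2
      have h4 : l = 1 := by
        have h3 : (1 - l) * a = 0 := by
          rcases hs with rfl | rfl
          · push_cast at e1; linarith
          · push_cast at e1; linarith
        rcases mul_eq_zero.1 h3 with h | h
        · linarith
        · linarith
      right
      apply inj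
      rw [hl0, h4, pv]
      simp [toPlane]

theorem finite_dag (n : ℕ) : Finite (BipartiteDAG n) := by
  apply Finite.of_injective (fun G : BipartiteDAG n => (G.Adj, G.V₁))
  intro G H h
  cases G
  cases H
  simpa using h

theorem bdd (n : ℕ) :
    BddAbove {a | ∃ G : BipartiteDAG n, Nonempty (PolyLineDrawing G) ∧ a = minArea G} := by
  have := finite_dag n
  apply Set.Finite.bddAbove
  apply Set.Finite.subset (Set.finite_range (fun G : BipartiteDAG n => minArea G))
  rintro a ⟨G, _, rfl⟩
  exact ⟨G, rfl⟩

theorem exists_box {n : ℕ} {G : BipartiteDAG n} (D : PolyLineDrawing G) :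
    ∃ (x₀ y₀ : ℤ) (W H : ℕ), D.InBox x₀ y₀ W H := by
  classical
  let A : Finset (ℤ × ℤ) := Finset.univ.image D.pos ∪
    (Finset.univ : Finset (Fin n × Fin n)).biUnion (fun e => (D.bends e.1 e.2).toFinset)
  obtain ⟨K, hK⟩ : ∃ K : ℕ, ∀ p ∈ A, p.1.natAbs ≤ K ∧ p.2.natAbs ≤ K := by
    refine ⟨∑ p ∈ A, (p.1.natAbs + p.2.natAbs), fun p hp => ?_⟩
    have := Finset.single_le_sum (f := fun p : ℤ × ℤ => p.1.natAbs + p.2.natAbs)
      (fun _ _ => Nat.zero_le _) hp
    omega
  refine ⟨-K, -K, 2 * K, 2 * K, ?_, ?_⟩
  · intro v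
    have := hK (D.pos v) (by simp [A])
    omega
  · intro u v _ p hp
    have := hK p (by
      simp only [A, Finset.mem_union, Finset.mem_biUnion, Finset.mem_univ, true_and]
      right
      exact ⟨(u, v), by simpa using hp⟩)
    omega

theorem area_ge {n : ℕ} (hn : 12 ≤ n) (D : PolyLineDrawing (Gn n)) :
    (n / 4 - 3) ^ 2 ≤ D.area := by
  have hne : {a | ∃ (x₀ y₀ : ℤ) (W H : ℕ), D.InBox x₀ y₀ W H ∧ a = W * H}.Nonempty := by
    obtain ⟨x₀, y₀, W, H, hb⟩ := exists_box D
    exact ⟨_, x₀, y₀, W, H, hb, rfl⟩
  obtain ⟨x₀, y₀, W, H, hb, he⟩ := Nat.sInf_mem hne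
  have he' : D.area = W * H := he
  rw [he', sq]
  obtain ⟨h1, h2⟩ := box_bound hn D hb
  exact Nat.mul_le_mul h1 h2

theorem main (n : ℕ) (hn : 28 ≤ n) : n ^ 2 ≤ 64 * Ap n := by
  have h1 : minArea (Gn n) ≤ Ap n := le_csSup (bdd n) ⟨Gn n, ⟨gnDrawing n⟩, rfl⟩
  have h2 : (n / 4 - 3) ^ 2 ≤ minArea (Gn n) := by
    have hne : {a | ∃ D : PolyLineDrawing (Gn n), a = D.area}.Nonempty := ⟨_, gnDrawing n, rfl⟩
    obtain ⟨D, hD⟩ := Nat.sInf_mem hne
    have hD' : minArea (Gn n) = D.area := hD
    rw [hD']
    exact area_ge (by omega) D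
  have h3 : n ≤ 8 * (n / 4 - 3) := by omega
  calc n ^ 2 ≤ (8 * (n / 4 - 3)) ^ 2 := Nat.pow_le_pow_left h3 2
    _ = 64 * (n / 4 - 3) ^ 2 := by ring
    _ ≤ 64 * Ap n := Nat.mul_le_mul_left _ (h2.trans h1)

end Pool.Agent.Y408.BA
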