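import Mathlib

/-!
Systems of upward curves whose only common points are common sources or common sinks, and the
parity of the number of arcs of an even arc set to the left of an arc.
-/

set_option autoImplicit false

namespace Pool.Agent.Y408.BA

/-- two continuous functions that differ on an interval are in the same order at its ends -/
theorem sgn {f g : ℝ → ℝ} (hf : Continuous f) (hg : Continuous g) {a b : ℝ} (hab : a ≤ b)
    (h : ∀ t, a ≤ t → t ≤ b → f t ≠ g t) : f a < g a ↔ f b < g b := by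
  have key : ∀ {f g : ℝ → ℝ}, Continuous f → Continuous g → (∀ t, a ≤ t → t ≤ b → f t ≠ g t) →
      f a < g a → f b < g b := by
    intro f g hf hg h h1
    by_contra h2
    push Not at h2
    have hc : ContinuousOn (fun t => g t - f t) (Set.Icc a b) := (hg.sub hf).continuousOn
    have := intermediate_value_Icc' hab hc
    have h0 : (0 : ℝ) ∈ Set.Icc (g b - f b) (g a - f a) := ⟨by linarith, by linarith⟩
    obtain ⟨t, ht, h3⟩ := this h0
    exact h t ht.1 ht.2 (by simp only at h3; linarith)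
  constructor
  · exact key hf hg h
  · intro h1
    rcases lt_trichotomy (f a) (g a) with h2 | h2 | h2
    · exact h2
    · exact absurd h2 (h a le_rfl hab)
    · have := key hg hf (fun t h3 h4 => (h t h3 h4).symm) h2
      linarith

/-- A system of upward curves: vertices `v` at `(X v, Y v)`, arcs `u → v` drawn as the graph
`x = F u v y` for `Y u ≤ y ≤ Y v`; two different arcs meet only at a common tail or a common
head. The numbers `lo u v`, `hi u v` are the extreme `x`-coordinates of the arc, attained at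
integer levels. -/
structure Sys where
  X : ℕ → ℝ
  Y : ℕ → ℤ
  E : ℕ → ℕ → Prop
  F : ℕ → ℕ → ℝ → ℝ
  lo : ℕ → ℕ → ℤ
  hi : ℕ → ℕ → ℤ
  cont : ∀ u v, E u v → Continuous (F u v)
  lt : ∀ u v, E u v → Y u < Y v
  bot : ∀ u v, E u v → F u v (Y u) = X u
  top : ∀ u v, E u v → F u v (Y v) = X v
  ne : ∀ u v u' v', E u v → E u' v' → (u, v) ≠ (u', v') → ∀ t : ℝ,
    (Y u : ℝ) ≤ t → t ≤ Y v → (Y u' : ℝ) ≤ t → t ≤ Y v' → F u v t = F u' v' t →
      (u = u' ∧ t = Y u) ∨ (v = v' ∧ t = Y v)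
  lo_le : ∀ u v, E u v → ∀ t : ℝ, (Y u : ℝ) ≤ t → t ≤ Y v → (lo u v : ℝ) ≤ F u v t
  le_hi : ∀ u v, E u v → ∀ t : ℝ, (Y u : ℝ) ≤ t → t ≤ Y v → F u v t ≤ hi u v
  lo_att : ∀ u v, E u v → ∃ l : ℤ, Y u ≤ l ∧ l ≤ Y v ∧ F u v l = lo u v
  hi_att : ∀ u v, E u v → ∃ l : ℤ, Y u ≤ l ∧ l ≤ Y v ∧ F u v l = hi u v

variable (S : Sys)

/-- `1` if the arc `g` crosses the slab above level `k` to the left of `e` -/
noncomputable def Sys.wt (k : ℤ) (e g : ℕ × ℕ) : ZMod 2 :=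
  open Classical in
  if S.Y g.1 ≤ k ∧ k < S.Y g.2 ∧ S.F g.1 g.2 ((k : ℝ) + 1 / 2) < S.F e.1 e.2 ((k : ℝ) + 1 / 2)
  then 1 else 0

/-- the parity of the number of arcs of `C` to the left of `e` in the slab above level `k` -/
noncomputable def Sys.chi (C : List (ℕ × ℕ)) (e : ℕ × ℕ) (k : ℤ) : ZMod 2 :=
  (C.map (S.wt k e)).sum

/-- every vertex has even in-degree and even out-degree -/
def EvenL (C : List (ℕ × ℕ)) : Prop :=
  (∀ v : ℕ, (C.map (fun g => if g.1 = v then (1 : ZMod 2) else 0)).sum = 0) ∧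
  (∀ v : ℕ, (C.map (fun g => if g.2 = v then (1 : ZMod 2) else 0)).sum = 0)

theorem sum_aux (f : ℕ × ℕ → ℕ) (h : ℕ → ZMod 2) (A : Finset ℕ) :
    ∀ C : List (ℕ × ℕ), (∀ g ∈ C, f g ∈ A) →
      (C.map (fun g => h (f g))).sum =
        ∑ v ∈ A, h v * (C.map (fun g => if f g = v then (1 : ZMod 2) else 0)).sum := by
  intro C
  induction C with
  | nil => intro _; simp
  | cons g C ih =>
    intro hA
    have hg : f g ∈ A := hA g (by simp)
    rw [List.map_cons, List.sum_cons, ih (fun g' hg' => hA g' (by simp [hg']))]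
    simp only [List.map_cons, List.sum_cons, mul_add, Finset.sum_add_distrib]
    congr 1
    simp [hg]

theorem EvenL.fst {C : List (ℕ × ℕ)} (hC : EvenL C) (h : ℕ → ZMod 2) :
    (C.map (fun g => h g.1)).sum = 0 := by
  rw [sum_aux (fun g => g.1) h (C.map (fun g => g.1)).toFinset C (fun g hg => by
    rw [List.mem_toFinset]; exact List.mem_map_of_mem hg)]
  apply Finset.sum_eq_zero
  intro v _
  rw [hC.1 v, mul_zero]

theorem EvenL.snd {C : List (ℕ × ℕ)} (hC : EvenL C) (h : ℕ → ZMod 2) :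
    (C.map (fun g => h g.2)).sum = 0 := by
  rw [sum_aux (fun g => g.2) h (C.map (fun g => g.2)).toFinset C (fun g hg => by
    rw [List.mem_toFinset]; exact List.mem_map_of_mem hg)]
  apply Finset.sum_eq_zero
  intro v _
  rw [hC.2 v, mul_zero]

theorem eq_of_add_zero {a b : ZMod 2} (h : a + b = 0) : a = b := by
  revert a b; decide

variable {S}

/-- the order of two arcs in the upper half of a slab -/
theorem Sys.upper {e g : ℕ × ℕ} (he : S.E e.1 e.2) (hg : S.E g.1 g.2) (hne : e ≠ g) (k : ℤ)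
    (e1 : S.Y e.1 ≤ k) (e2 : k < S.Y e.2) (g1 : S.Y g.1 ≤ k) (g2 : k < S.Y g.2)
    (h : g.2 = e.2 → k + 1 < S.Y e.2) :
    S.F g.1 g.2 ((k : ℝ) + 1 / 2) < S.F e.1 e.2 ((k : ℝ) + 1 / 2) ↔
      S.F g.1 g.2 ((k : ℝ) + 1) < S.F e.1 e.2 ((k : ℝ) + 1) := by
  have e1' : (S.Y e.1 : ℝ) ≤ k := by exact_mod_cast e1
  have g1' : (S.Y g.1 : ℝ) ≤ k := by exact_mod_cast g1
  have e2' : (k : ℝ) + 1 ≤ S.Y e.2 := by exact_mod_cast e2
  have g2' : (k : ℝ) + 1 ≤ S.Y g.2 := by exact_mod_cast g2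
  apply sgn (S.cont _ _ hg) (S.cont _ _ he) (by linarith)
  intro t t1 t2 heq
  rcases S.ne _ _ _ _ hg he (fun h => hne (by rw [Prod.ext_iff] at h ⊢; exact ⟨h.1.symm, h.2.symm⟩))
    t (by linarith) (by linarith) (by linarith) (by linarith) heq with ⟨_, h2⟩ | ⟨h1, h2⟩
  · linarith
  · have h3 := h h1
    have h3' : (k : ℝ) + 1 + 1 ≤ S.Y e.2 := by exact_mod_cast h3
    rw [h1] at h2
    linarith

/-- the order of two arcs in the lower half of a slab -/
theorem Sys.lower {e g : ℕ × ℕ} (he : S.E e.1 e.2) (hg : S.E g.1 g.2) (hne : e ≠ g) (k : ℤ)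
    (e1 : S.Y e.1 ≤ k) (e2 : k < S.Y e.2) (g1 : S.Y g.1 ≤ k) (g2 : k < S.Y g.2)
    (h : g.1 = e.1 → S.Y e.1 < k) :
    S.F g.1 g.2 ((k : ℝ) + 1 / 2) < S.F e.1 e.2 ((k : ℝ) + 1 / 2) ↔
      S.F g.1 g.2 (k : ℝ) < S.F e.1 e.2 (k : ℝ) := by
  have e1' : (S.Y e.1 : ℝ) ≤ k := by exact_mod_cast e1
  have g1' : (S.Y g.1 : ℝ) ≤ k := by exact_mod_cast g1
  have e2' : (k : ℝ) + 1 ≤ S.Y e.2 := by exact_mod_cast e2
  have g2' : (k : ℝ) + 1 ≤ S.Y g.2 := by exact_mod_cast g2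
  symm
  apply sgn (S.cont _ _ hg) (S.cont _ _ he) (by linarith)
  intro t t1 t2 heq
  rcases S.ne _ _ _ _ hg he (fun h => hne (by rw [Prod.ext_iff] at h ⊢; exact ⟨h.1.symm, h.2.symm⟩))
    t (by linarith) (by linarith) (by linarith) (by linarith) heq with ⟨h1, h2⟩ | ⟨_, h2⟩
  · have h3 := h h1
    have h3' : (S.Y e.1 : ℝ) < k := by exact_mod_cast h3
    rw [h1] at h2
    linarith
  · linarith

theorem Sys.wt_of_upper {e g : ℕ × ℕ} (he : S.E e.1 e.2) (hg : S.E g.1 g.2) (hne : e ≠ g) (k : ℤ)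
    (e1 : S.Y e.1 ≤ k) (e2 : k < S.Y e.2) (h : g.2 = e.2 → k + 1 < S.Y e.2) :
    S.wt k e g = open Classical in
      if S.Y g.1 ≤ k ∧ k < S.Y g.2 ∧ S.F g.1 g.2 ((k : ℝ) + 1) < S.F e.1 e.2 ((k : ℝ) + 1)
      then 1 else 0 := by
  classical
  unfold Sys.wt
  apply if_congr _ rfl rfl
  constructor
  · rintro ⟨g1, g2, h3⟩
    exact ⟨g1, g2, (S.upper he hg hne k e1 e2 g1 g2 h).1 h3⟩
  · rintro ⟨g1, g2, h3⟩
    exact ⟨g1, g2, (S.upper he hg hne k e1 e2 g1 g2 h).2 h3⟩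

theorem Sys.wt_of_lower {e g : ℕ × ℕ} (he : S.E e.1 e.2) (hg : S.E g.1 g.2) (hne : e ≠ g) (k : ℤ)
    (e1 : S.Y e.1 ≤ k) (e2 : k < S.Y e.2) (h : g.1 = e.1 → S.Y e.1 < k) :
    S.wt k e g = open Classical in
      if S.Y g.1 ≤ k ∧ k < S.Y g.2 ∧ S.F g.1 g.2 (k : ℝ) < S.F e.1 e.2 (k : ℝ)
      then 1 else 0 := by
  classical
  unfold Sys.wt
  apply if_congr _ rfl rfl
  constructor
  · rintro ⟨g1, g2, h3⟩
    exact ⟨g1, g2, (S.lower he hg hne k e1 e2 g1 g2 h).1 h3⟩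
  · rintro ⟨g1, g2, h3⟩
    exact ⟨g1, g2, (S.lower he hg hne k e1 e2 g1 g2 h).2 h3⟩

theorem map_sum_congr {C : List (ℕ × ℕ)} {f h : ℕ × ℕ → ZMod 2} (H : ∀ g ∈ C, f g = h g) :
    (C.map f).sum = (C.map h).sum := by
  rw [List.map_congr_left H]

/-- the parity does not change along an arc outside `C` -/
theorem Sys.chi_succ {C : List (ℕ × ℕ)} (hC : EvenL C) (hCE : ∀ g ∈ C, S.E g.1 g.2)
    {e : ℕ × ℕ} (he : S.E e.1 e.2) (hne : e ∉ C) (k : ℤ) (e1 : S.Y e.1 ≤ k)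
    (e2 : k + 1 < S.Y e.2) : S.chi C e k = S.chi C e (k + 1) := by
  classical
  apply eq_of_add_zero
  set xe : ℝ := S.F e.1 e.2 ((k : ℝ) + 1) with hxe
  let h : ℕ → ZMod 2 := fun v => if S.Y v = k + 1 ∧ S.X v < xe then 1 else 0
  have key : ∀ g ∈ C, S.wt k e g + S.wt (k + 1) e g = h g.2 + h g.1 := by
    intro g hg
    have hgE := hCE g hg
    have hn : e ≠ g := fun h => hne (h ▸ hg)
    rw [S.wt_of_upper he hgE hn k e1 (by omega) (fun _ => e2),
      S.wt_of_lower he hgE hn (k + 1) (by omega) e2 (fun _ => by omega)]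
    have hlt := S.lt _ _ hgE
    have hc : (((k + 1 : ℤ)) : ℝ) = (k : ℝ) + 1 := by push_cast; ring
    rw [hc, ← hxe]
    simp only [h]
    have ht : S.Y g.2 = k + 1 → S.F g.1 g.2 ((k : ℝ) + 1) = S.X g.2 := by
      intro h1
      rw [← hc, ← h1]
      exact S.top _ _ hgE
    have hb : S.Y g.1 = k + 1 → S.F g.1 g.2 ((k : ℝ) + 1) = S.X g.1 := by
      intro h1
      rw [← hc, ← h1]
      exact S.bot _ _ hgE
    by_cases c1 : S.Y g.2 = k + 1
    · rw [ht c1]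
      have n1 : ¬ (S.Y g.1 ≤ k + 1 ∧ k + 1 < S.Y g.2 ∧ S.X g.2 < xe) := by omega
      have n2 : ¬ (S.Y g.1 = k + 1 ∧ S.X g.1 < xe) := by omega
      rw [if_neg n1, if_neg n2]
      congr 1
      apply if_congr _ rfl rfl
      constructor
      · rintro ⟨_, _, h3⟩; exact ⟨c1, h3⟩
      · rintro ⟨_, h3⟩; exact ⟨by omega, by omega, h3⟩
    · by_cases c2 : S.Y g.1 = k + 1
      · rw [hb c2]
        have n1 : ¬ (S.Y g.1 ≤ k ∧ k < S.Y g.2 ∧ S.X g.1 < xe) := by omega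
        have n2 : ¬ (S.Y g.2 = k + 1 ∧ S.X g.2 < xe) := by omega
        rw [if_neg n1, if_neg n2]
        congr 1
        apply if_congr _ rfl rfl
        constructor
        · rintro ⟨_, _, h3⟩; exact ⟨c2, h3⟩
        · rintro ⟨_, h3⟩; exact ⟨by omega, by omega, h3⟩
      · have n1 : ¬ (S.Y g.2 = k + 1 ∧ S.X g.2 < xe) := by omega
        have n2 : ¬ (S.Y g.1 = k + 1 ∧ S.X g.1 < xe) := by omega
        rw [if_neg n1, if_neg n2]
        by_cases c3 : S.Y g.1 ≤ k ∧ k < S.Y g.2 ∧ S.F g.1 g.2 ((k : ℝ) + 1) < xe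
        · rw [if_pos c3, if_pos ⟨by omega, by omega, c3.2.2⟩]; decide
        · rw [if_neg c3, if_neg]
          rintro ⟨h1, h2, h3⟩
          exact c3 ⟨by omega, by omega, h3⟩
  have h2 : S.chi C e k + S.chi C e (k + 1) =
      (C.map (fun g => h g.2)).sum + (C.map (fun g => h g.1)).sum := by
    unfold Sys.chi
    rw [← List.sum_map_add, ← List.sum_map_add]
    exact map_sum_congr key
  rw [h2, hC.fst, hC.snd, add_zero]

theorem Sys.chi_eq {C : List (ℕ × ℕ)} (hC : EvenL C) (hCE : ∀ g ∈ C, S.E g.1 g.2)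
    {e : ℕ × ℕ} (he : S.E e.1 e.2) (hne : e ∉ C) (k : ℤ) (e1 : S.Y e.1 ≤ k)
    (e2 : k < S.Y e.2) : S.chi C e k = S.chi C e (S.Y e.1) := by
  obtain ⟨n, rfl⟩ : ∃ n : ℕ, k = S.Y e.1 + n := ⟨(k - S.Y e.1).toNat, by omega⟩
  induction n with
  | zero => simp
  | succ n ih =>
    have h1 := S.chi_succ hC hCE he hne (S.Y e.1 + n) (by omega) (by push_cast at e2; omega)
    rw [← ih (by omega) (by push_cast at e2; omega), h1]
    congr 1
    push_cast
    ring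

/-- arcs with the same tail outside `C` have the same parity -/
theorem Sys.chi_tail {C : List (ℕ × ℕ)} (hCE : ∀ g ∈ C, S.E g.1 g.2) {s v v' : ℕ}
    (h : S.E s v) (h' : S.E s v') (hs : ∀ g ∈ C, g.1 ≠ s) :
    S.chi C (s, v) (S.Y s) = S.chi C (s, v') (S.Y s) := by
  unfold Sys.chi
  apply map_sum_congr
  intro g hg
  have hlt := S.lt _ _ h
  have hlt' := S.lt _ _ h'
  rw [S.wt_of_lower (e := (s, v)) h (hCE g hg) (fun h1 => hs g hg (by rw [← h1])) _ le_rfl hlt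
      (fun h1 => absurd h1 (hs g hg)),
    S.wt_of_lower (e := (s, v')) h' (hCE g hg) (fun h1 => hs g hg (by rw [← h1])) _ le_rfl hlt'
      (fun h1 => absurd h1 (hs g hg))]
  simp only [S.bot _ _ h, S.bot _ _ h']

/-- arcs with the same head outside `C` have the same parity -/
theorem Sys.chi_head {C : List (ℕ × ℕ)} (hCE : ∀ g ∈ C, S.E g.1 g.2) {u u' w : ℕ}
    (h : S.E u w) (h' : S.E u' w) (hs : ∀ g ∈ C, g.2 ≠ w) :
    S.chi C (u, w) (S.Y w - 1) = S.chi C (u', w) (S.Y w - 1) := by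
  unfold Sys.chi
  apply map_sum_congr
  intro g hg
  have hlt := S.lt _ _ h
  have hlt' := S.lt _ _ h'
  have hc : (((S.Y w - 1 : ℤ)) : ℝ) + 1 = S.Y w := by push_cast; ring
  rw [S.wt_of_upper (e := (u, w)) h (hCE g hg) (fun h1 => hs g hg (by rw [← h1])) _
      (by show S.Y u ≤ _; omega) (by show _ < S.Y w; omega)
      (fun h1 => absurd h1 (hs g hg)),
    S.wt_of_upper (e := (u', w)) h' (hCE g hg) (fun h1 => hs g hg (by rw [← h1])) _
      (by show S.Y u' ≤ _; omega) (by show _ < S.Y w; omega)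
      (fun h1 => absurd h1 (hs g hg))]
  simp only [hc, S.top _ _ h, S.top _ _ h']

/-- the parity at a head that is at least as high as all heads of `C` vanishes -/
theorem Sys.chi_top {C : List (ℕ × ℕ)} (hC : EvenL C) (hCE : ∀ g ∈ C, S.E g.1 g.2) {u w : ℕ}
    (h : S.E u w) (hs : ∀ g ∈ C, g.2 ≠ w) (ht : ∀ g ∈ C, S.Y g.2 ≤ S.Y w) :
    S.chi C (u, w) (S.Y w - 1) = 0 := by
  classical
  rw [← hC.snd (fun v => if S.Y v = S.Y w ∧ S.X v < S.X w then 1 else 0)]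
  unfold Sys.chi
  apply map_sum_congr
  intro g hg
  have hlt := S.lt _ _ h
  have hgl := S.lt _ _ (hCE g hg)
  have hgt := ht g hg
  have hc : (((S.Y w - 1 : ℤ)) : ℝ) + 1 = S.Y w := by push_cast; ring
  rw [S.wt_of_upper (e := (u, w)) h (hCE g hg) (fun h1 => hs g hg (by rw [← h1])) _
      (by show S.Y u ≤ _; omega) (by show _ < S.Y w; omega)
      (fun h1 => absurd h1 (hs g hg))]
  simp only [hc, S.top _ _ h]
  by_cases c : S.Y g.2 = S.Y w
  · rw [← c, S.top _ _ (hCE g hg)]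
    apply if_congr _ rfl rfl
    constructor
    · rintro ⟨_, _, h3⟩; exact ⟨rfl, h3⟩
    · rintro ⟨_, h3⟩; exact ⟨by omega, by omega, h3⟩
  · rw [if_neg, if_neg]
    · rintro ⟨h1, _⟩; exact c h1
    · rintro ⟨h1, h2, _⟩; omega

/-- the parity at a tail that is at least as low as all tails of `C` vanishes -/
theorem Sys.chi_bot {C : List (ℕ × ℕ)} (hC : EvenL C) (hCE : ∀ g ∈ C, S.E g.1 g.2) {s v : ℕ}
    (h : S.E s v) (hs : ∀ g ∈ C, g.1 ≠ s) (ht : ∀ g ∈ C, S.Y s ≤ S.Y g.1) :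
    S.chi C (s, v) (S.Y s) = 0 := by
  classical
  rw [← hC.fst (fun v => if S.Y v = S.Y s ∧ S.X v < S.X s then 1 else 0)]
  unfold Sys.chi
  apply map_sum_congr
  intro g hg
  have hlt := S.lt _ _ h
  have hgl := S.lt _ _ (hCE g hg)
  have hgt := ht g hg
  rw [S.wt_of_lower (e := (s, v)) h (hCE g hg) (fun h1 => hs g hg (by rw [← h1])) _ le_rfl hlt
      (fun h1 => absurd h1 (hs g hg))]
  simp only [S.bot _ _ h]
  by_cases c : S.Y g.1 = S.Y s
  · rw [← c, S.bot _ _ (hCE g hg)]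
    apply if_congr _ rfl rfl
    constructor
    · rintro ⟨_, _, h3⟩; exact ⟨rfl, h3⟩
    · rintro ⟨_, h3⟩; exact ⟨by omega, by omega, h3⟩
  · rw [if_neg, if_neg]
    · rintro ⟨h1, _⟩; exact c h1
    · rintro ⟨h1, h2, _⟩; omega

/-- the number of arcs of `C` that cross a slab is even -/
theorem Sys.total {C : List (ℕ × ℕ)} (hC : EvenL C) (hCE : ∀ g ∈ C, S.E g.1 g.2) (k : ℤ) :
    (C.map (fun g => if S.Y g.1 ≤ k ∧ k < S.Y g.2 then (1 : ZMod 2) else 0)).sum = 0 := by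
  have h1 := hC.fst (fun v => if S.Y v ≤ k then 1 else 0)
  have h2 := hC.snd (fun v => if S.Y v ≤ k then 1 else 0)
  have h3 : (C.map (fun g => if S.Y g.1 ≤ k ∧ k < S.Y g.2 then (1 : ZMod 2) else 0)).sum =
      (C.map (fun g => if S.Y g.1 ≤ k then (1 : ZMod 2) else 0)).sum +
      (C.map (fun g => if S.Y g.2 ≤ k then (1 : ZMod 2) else 0)).sum := ?_
  · rw [h3, h1, h2, add_zero]
  rw [← List.sum_map_add]
  apply map_sum_congr
  intro g hg
  have hlt := S.lt _ _ (hCE g hg)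
  by_cases c1 : S.Y g.1 ≤ k
  · by_cases c2 : S.Y g.2 ≤ k
    · rw [if_neg (by omega), if_pos c1, if_pos c2]; decide
    · rw [if_pos (by omega), if_pos c1, if_neg c2]; decide
  · rw [if_neg (by omega), if_neg c1, if_neg (by omega)]; decide

/-- some arc of `C` passes on the left -/
theorem Sys.exists_left {C : List (ℕ × ℕ)} {e : ℕ × ℕ} {k : ℤ} (h : S.chi C e k = 1) :
    ∃ g ∈ C, S.Y g.1 ≤ k ∧ k < S.Y g.2 ∧
      S.F g.1 g.2 ((k : ℝ) + 1 / 2) < S.F e.1 e.2 ((k : ℝ) + 1 / 2) := by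
  classical
  by_contra hcon
  push Not at hcon
  have : S.chi C e k = 0 := by
    unfold Sys.chi
    rw [List.map_congr_left (g := fun _ => (0 : ZMod 2)) (fun g hg => by
      unfold Sys.wt
      rw [if_neg]
      rintro ⟨h1, h2, h3⟩
      exact absurd h3 (not_lt.2 (hcon g hg h1 h2)))]
    simp
  rw [this] at h
  exact absurd h (by decide)

/-- some arc of `C` passes on the right -/
theorem Sys.exists_right {C : List (ℕ × ℕ)} (hC : EvenL C) (hCE : ∀ g ∈ C, S.E g.1 g.2)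
    {e : ℕ × ℕ} (he : S.E e.1 e.2) (hne : e ∉ C) {k : ℤ} (e1 : S.Y e.1 ≤ k) (e2 : k < S.Y e.2)
    (h : S.chi C e k = 1) :
    ∃ g ∈ C, S.Y g.1 ≤ k ∧ k < S.Y g.2 ∧
      S.F e.1 e.2 ((k : ℝ) + 1 / 2) < S.F g.1 g.2 ((k : ℝ) + 1 / 2) := by
  classical
  by_contra hcon
  push Not at hcon
  have : S.chi C e k = 0 := by
    rw [← S.total hC hCE k]
    unfold Sys.chi
    apply map_sum_congr
    intro g hg
    unfold Sys.wt
    apply if_congr _ rfl rfl
    constructor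
    · rintro ⟨h1, h2, _⟩; exact ⟨h1, h2⟩
    · rintro ⟨h1, h2⟩
      refine ⟨h1, h2, lt_of_le_of_ne (hcon g hg h1 h2) ?_⟩
      intro heq
      have e1' : (S.Y e.1 : ℝ) ≤ k := by exact_mod_cast e1
      have g1' : (S.Y g.1 : ℝ) ≤ k := by exact_mod_cast h1
      have e2' : (k : ℝ) + 1 ≤ S.Y e.2 := by exact_mod_cast e2
      have g2' : (k : ℝ) + 1 ≤ S.Y g.2 := by exact_mod_cast h2
      rcases S.ne _ _ _ _ (hCE g hg) he (fun h => hne (by
        have : g = e := h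
        rw [← this]; exact hg))
        _ (by linarith) (by linarith) (by linarith) (by linarith) heq with ⟨_, h2⟩ | ⟨_, h2⟩
      · linarith
      · linarith
  rw [this] at h
  exact absurd h (by decide)

theorem Sys.chi_append (C C' : List (ℕ × ℕ)) (e : ℕ × ℕ) (k : ℤ) :
    S.chi (C ++ C') e k = S.chi C e k + S.chi C' e k := by
  unfold Sys.chi
  rw [List.map_append, List.sum_append]

theorem Sys.chi_cons (g : ℕ × ℕ) (C : List (ℕ × ℕ)) (e : ℕ × ℕ) (k : ℤ) :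
    S.chi (g :: C) e k = S.wt k e g + S.chi C e k := by
  unfold Sys.chi
  rw [List.map_cons, List.sum_cons]

/-- of two arcs with the same tail exactly one is on the left of the other -/
theorem Sys.wt_swap {s v v' : ℕ} (h : S.E s v) (h' : S.E s v') (hv : v ≠ v') :
    S.wt (S.Y s) (s, v) (s, v') + S.wt (S.Y s) (s, v') (s, v) = 1 := by
  classical
  have hlt := S.lt _ _ h
  have hlt' := S.lt _ _ h'
  have e2' : (S.Y s : ℝ) + 1 ≤ S.Y v := by exact_mod_cast hlt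
  have g2' : (S.Y s : ℝ) + 1 ≤ S.Y v' := by exact_mod_cast hlt'
  unfold Sys.wt
  simp only
  rcases lt_trichotomy (S.F s v ((S.Y s : ℝ) + 1 / 2)) (S.F s v' ((S.Y s : ℝ) + 1 / 2))
    with c | c | c
  · rw [if_neg, if_pos ⟨le_rfl, hlt, c⟩]
    · decide
    · rintro ⟨_, _, h3⟩; linarith
  · exfalso
    rcases S.ne _ _ _ _ h h' (by simp [hv])
      _ (by linarith) (by linarith) (by linarith) (by linarith) c with ⟨_, h2⟩ | ⟨_, h2⟩
    · linarith
    · linarith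
  · rw [if_pos ⟨le_rfl, hlt', c⟩, if_neg]
    · decide
    · rintro ⟨_, _, h3⟩; linarith

/-- **Theta lemma**: three arc sets `(s, tᵢ) :: Qᵢ`, where no arc of `Qᵢ` has tail `s`. -/
theorem Sys.theta {s t1 t2 t3 : ℕ} (h1 : S.E s t1) (h2 : S.E s t2) (h3 : S.E s t3)
    (n12 : t1 ≠ t2) (n13 : t1 ≠ t3) (n23 : t2 ≠ t3) {Q1 Q2 Q3 : List (ℕ × ℕ)}
    (q1 : ∀ g ∈ Q1, S.E g.1 g.2 ∧ g.1 ≠ s) (q2 : ∀ g ∈ Q2, S.E g.1 g.2 ∧ g.1 ≠ s)
    (q3 : ∀ g ∈ Q3, S.E g.1 g.2 ∧ g.1 ≠ s) :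
    S.chi (((s, t2) :: Q2) ++ ((s, t3) :: Q3)) (s, t1) (S.Y s) +
      S.chi (((s, t1) :: Q1) ++ ((s, t3) :: Q3)) (s, t2) (S.Y s) +
      S.chi (((s, t1) :: Q1) ++ ((s, t2) :: Q2)) (s, t3) (S.Y s) = 1 := by
  simp only [S.chi_append, S.chi_cons]
  have a1 := S.chi_tail (C := Q1) (fun g hg => (q1 g hg).1) h2 h3 (fun g hg => (q1 g hg).2)
  have a2 := S.chi_tail (C := Q2) (fun g hg => (q2 g hg).1) h1 h3 (fun g hg => (q2 g hg).2)
  have a3 := S.chi_tail (C := Q3) (fun g hg => (q3 g hg).1) h1 h2 (fun g hg => (q3 g hg).2)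
  have b1 := S.wt_swap h1 h2 n12
  have b2 := S.wt_swap h1 h3 n13
  have b3 := S.wt_swap h2 h3 n23
  rw [a1, a2, a3]
  generalize S.wt (S.Y s) (s, t1) (s, t2) = x12 at *
  generalize S.wt (S.Y s) (s, t2) (s, t1) = x21 at *
  generalize S.wt (S.Y s) (s, t1) (s, t3) = x13 at *
  generalize S.wt (S.Y s) (s, t3) (s, t1) = x31 at *
  generalize S.wt (S.Y s) (s, t2) (s, t3) = x23 at *
  generalize S.wt (S.Y s) (s, t3) (s, t2) = x32 at *
  generalize S.chi Q1 (s, t3) (S.Y s) = y1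
  generalize S.chi Q2 (s, t3) (S.Y s) = y2
  generalize S.chi Q3 (s, t2) (S.Y s) = y3
  clear a1 a2 a3
  revert x12 x21 x13 x31 x23 x32 y1 y2 y3
  decide

end Pool.Agent.Y408.BA
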